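import Mathlib

/-!
# MP_465591_an, Theorem N, part H: Lemma H in abstract form

`dv n c`: the divergence at `c` of the real vector field `n` on `ℂ`.  `S_H`: Lemma H of note 4177.
The other statements are the steps of its proof, in the coordinate `w = τ + i θ`, `z = exp w`.
-/

set_option autoImplicit false

open Filter Topology MeasureTheory

noncomputable section

namespace Pool.Agent.N465591

/-- The divergence at `c` of the real vector field `n`. -/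
def dv (n : ℂ → ℂ) (c : ℂ) : ℝ := (fderiv ℝ n c 1).re + (fderiv ℝ n c Complex.I).im

/-- LEMMA H.  `P` holomorphic on `|z| < R`; on the annulus `C < |z| < R` the function `nn` is locally
`n ∘ P` with `n` of class `C^1`, `|n|² ≤ C1 div n`; where `|P - c0| < ε` and `nn ≠ 0`: `div n ≥ c1`, `|nn| ≥ c1`. -/
def S_H : Prop :=
  ∀ C1 c1 ε : ℝ, 0 < C1 → 0 < c1 → 0 < ε → ∃ K : ℝ, 0 < K ∧
    ∀ (c0 : ℂ) (P nn : ℂ → ℂ) (C R : ℝ), 0 < C →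
    DifferentiableOn ℂ P (Metric.ball 0 R) →
    (∀ z, C < ‖z‖ → ‖z‖ < R → ∃ n : ℂ → ℂ, ContDiffAt ℝ 1 n (P z) ∧
      (∀ᶠ z' in 𝓝 z, nn z' = n (P z')) ∧ ‖nn z‖ ^ 2 ≤ C1 * dv n (P z) ∧
      (‖P z - c0‖ < ε → nn z ≠ 0 → c1 ≤ dv n (P z))) →
    (∀ z, C < ‖z‖ → ‖z‖ < R → ‖P z - c0‖ < ε → nn z ≠ 0 → c1 ≤ ‖nn z‖) →
    ε ≤ ‖P 0 - c0‖ →
    ∀ z1, C < ‖z1‖ → ‖z1‖ < R → P z1 = c0 → nn z1 ≠ 0 →
      ‖z1‖ < C * Real.exp K ∨ R < ‖z1‖ * Real.exp K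

/-! ## The steps -/

/-- The integrand `Re (conj ν * T)`, `T = p'`. -/
def gg (p ν : ℂ → ℂ) (w : ℂ) : ℝ := ((starRingEnd ℂ) (ν w) * deriv p w).re

/-- The density `div(n) |T|²`, expressed by the derivatives of `ν = n ∘ p`. -/
def AA (p ν : ℂ → ℂ) (w : ℂ) : ℝ :=
  ((starRingEnd ℂ) (fderiv ℝ ν w 1) * deriv p w).re -
    ((starRingEnd ℂ) (fderiv ℝ ν w Complex.I) * deriv p w).im

/-- `l(τ)`. -/
def ll (p ν : ℂ → ℂ) (τ : ℝ) : ℝ := ∫ θ in (0 : ℝ)..(2 * Real.pi), gg p ν (τ + θ * Complex.I)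

/-- `a(τ)`. -/
def aa (p ν : ℂ → ℂ) (τ : ℝ) : ℝ := ∫ θ in (0 : ℝ)..(2 * Real.pi), AA p ν (τ + θ * Complex.I)

/-- The data in the strip `a < Re w < b`. -/
structure Str (a b C1 c1 ε : ℝ) (c0 : ℂ) (p ν : ℂ → ℂ) : Prop where
  hol : ∀ w : ℂ, a < w.re → w.re < b → AnalyticAt ℂ p w
  smo : ∀ w : ℂ, a < w.re → w.re < b → ContDiffAt ℝ 1 ν w
  pper : ∀ w : ℂ, a < w.re → w.re < b → p (w + 2 * Real.pi * Complex.I) = p w
  νper : ∀ w : ℂ, a < w.re → w.re < b → ν (w + 2 * Real.pi * Complex.I) = ν w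
  ine : ∀ w : ℂ, a < w.re → w.re < b → ‖ν w‖ ^ 2 * ‖deriv p w‖ ^ 2 ≤ C1 * AA p ν w
  low : ∀ w : ℂ, a < w.re → w.re < b → ‖p w - c0‖ < ε → ν w ≠ 0 →
    c1 * ‖deriv p w‖ ^ 2 ≤ AA p ν w
  gap : ∀ w : ℂ, a < w.re → w.re < b → ‖p w - c0‖ < ε → ν w ≠ 0 → c1 ≤ ‖ν w‖

/-- **Cal.**  `l' = a`, `l² ≤ 2 π C1 a`; `a` is continuous, `A` is continuous and `≥ 0`.
PROOF.  `T = deriv p` is analytic in the strip, `fderiv ℝ ν` is continuous (`ContDiffAt ℝ 1`), so `A` is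
continuous in the (open) strip; `A ≥ 0` from `ine` (`C1 > 0`).  With `w = τ + i θ`:
`∂_τ (conj ν T) = conj (Dν 1) T + conj ν T'`, `∂_θ (conj ν T) = conj (Dν i) T + i conj ν T'`, so
`∂_τ gg = A + ∂_θ Im (conj ν T)` (`Re (conj ν T') = Im (i conj ν T')`).  Differentiation under the integral over the compact
interval `[0, 2π]` (`intervalIntegral.hasDerivAt_integral_of_dominated_loc_of_deriv_le`, the derivative is
continuous, so bounded on a compact rectangle); `∫ ∂_θ Im (conj ν T) = 0` by `intervalIntegral.integral_eq_sub_of_hasDerivAt`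
and periodicity (`deriv p` is periodic too: `p (· + 2 π i) = p` near `w`).
Cauchy-Schwarz: `gg² ≤ |ν|² |T|² ≤ C1 A`, `(∫ gg)² ≤ 2 π ∫ gg²` (e.g. expand `0 ≤ ∫ (gg - m)²`, `m` the mean).
`a` is continuous: `intervalIntegral.continuousAt_of_dominated_interval` or `continuousOn` of a parametric integral. -/
def S_Cal : Prop :=
  ∀ (a b C1 c1 ε : ℝ) (c0 : ℂ) (p ν : ℂ → ℂ), 0 < C1 → Str a b C1 c1 ε c0 p ν →
    (∀ τ : ℝ, a < τ → τ < b → HasDerivAt (ll p ν) (aa p ν τ) τ) ∧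
    (∀ τ : ℝ, a < τ → τ < b → ll p ν τ ^ 2 ≤ 2 * Real.pi * C1 * aa p ν τ) ∧
    ContinuousOn (aa p ν) (Set.Ioo a b) ∧
    (∀ w : ℂ, a < w.re → w.re < b → ContinuousAt (AA p ν) w ∧ 0 ≤ AA p ν w)

/-- **Ric.**  Riccati inequality: `l' = a ≥ l²/M` on an interval of length `2 K` around `τ1` implies
`∫ a ≤ 4 M/K` over the middle half.
PROOF.  `a ≥ 0`, so `l` is monotone on the open interval.  CLAIM 1: `l τ ≤ M/(τ1 + K - τ)` for `τ` in the interval: if `l τ > 0` then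
`l > 0` on `[τ, τ1 + K)` and `f(s) = -1/l(s) - s/M` is monotone there (`f' = a/l² - 1/M ≥ 0`), so for `τ < s < τ1 + K`:
`-1/l(τ) - τ/M ≤ -1/l(s) - s/M < - s/M`, i.e. `1/l(τ) > (s - τ)/M`; let `s → τ1 + K` (`le_of_forall_lt`-type).
CLAIM 2: `l τ ≥ -M/(τ - (τ1 - K))` (apply claim 1 to `s ↦ -l (2 τ1 - s)`).
`∫ a = l(τ1 + K/2) - l(τ1 - K/2) ≤ 2M/K + 2M/K` (`intervalIntegral.integral_eq_sub_of_hasDerivAt`).
Existence: if `a > 8M/K²` on `(τ1, τ1 + K/2)`, then `∫_(τ1)^(τ1+K/2) a > 4M/K` (e.g. mean value theorem for `l`: there is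
`τ''` with `a τ'' = (l(τ1 + K/2) - l τ1)/(K/2) ≤ (4M/K)/(K/2)`, `exists_hasDerivAt_eq_slope`; `l(τ1) ≥ l(τ1 - K/2)`). -/
def S_Ric : Prop :=
  ∀ (l a : ℝ → ℝ) (M K τ1 : ℝ), 0 < M → 0 < K →
    (∀ τ, τ1 - K < τ → τ < τ1 + K → HasDerivAt l (a τ) τ) →
    (∀ τ, τ1 - K < τ → τ < τ1 + K → l τ ^ 2 ≤ M * a τ) →
    ContinuousOn a (Set.Ioo (τ1 - K) (τ1 + K)) →
    (∫ τ in (τ1 - K / 2)..(τ1 + K / 2), a τ) ≤ 4 * M / K ∧
    (∃ τ', τ1 - K / 2 < τ' ∧ τ' < τ1 ∧ a τ' ≤ 8 * M / K ^ 2) ∧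
    ∃ τ'', τ1 < τ'' ∧ τ'' < τ1 + K / 2 ∧ a τ'' ≤ 8 * M / K ^ 2

/-- **Cir.** (from `S_Cal`)  A circle with small `a` which meets `V' = {|p - c0| < ε/2, ν ≠ 0}` lies in
`{|p - c0| < ε}`.
PROOF.  `w θ = τ + i θ`.  Suppose `‖p (w θ1) - c0‖ ≥ ε`; by periodicity in `θ` (`pper`; induction on integers or
`Function.Periodic`) we may assume `θ0 < θ1 ≤ θ0 + 2 π`.  Let `θ* = sInf {θ ∈ [θ0, θ1] | ε ≤ ‖p (w θ) - c0‖}` (closed set, so
`θ*` is in it, `θ* > θ0`).  On `J = [θ0, θ*)`: `‖p - c0‖ < ε`, and `ν ≠ 0`: the set `{θ ∈ J | ν = 0}` is closed, and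
`{θ ∈ J | ν ≠ 0} = {θ ∈ J | c1 ≤ ‖ν‖}` is closed too (`gap`), `J` is connected (`isPreconnected`), `θ0` is in the second set.
So by `low` `c1 |T|² ≤ A` on `J`, and by continuity at `θ*` (or `Ioo`), `c1 ∫_(θ0)^(θ*) |T|² ≤ ∫_(θ0)^(θ*) A ≤ ∫_(θ0)^(θ0+2π) A = a(τ)`
(`A ≥ 0`, periodic: `Function.Periodic.intervalIntegral_add_eq`; `A` is periodic as `p`, `ν` are).  Finally
`ε/2 ≤ ‖p (w θ*) - p (w θ0)‖ ≤ ∫ |T|` and `(∫ |T|)² ≤ 2 π ∫ |T|²`: contradiction with `2 π a < c1 (ε/2)²`. -/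
def S_Cir : Prop :=
  ∀ (a b C1 c1 ε : ℝ) (c0 : ℂ) (p ν : ℂ → ℂ), 0 < C1 → 0 < c1 → 0 < ε → Str a b C1 c1 ε c0 p ν →
    ∀ τ : ℝ, a < τ → τ < b → 2 * Real.pi * aa p ν τ < c1 * (ε / 2) ^ 2 →
    (∃ θ0 : ℝ, ‖p (τ + θ0 * Complex.I) - c0‖ < ε / 2 ∧ ν (τ + θ0 * Complex.I) ≠ 0) →
    ∀ θ : ℝ, ‖p (τ + θ * Complex.I) - c0‖ < ε

/-- **Are.** (from `S_Cal`)  If the two circles `τ'`, `τ''` do not meet `V'` and a point between them is in `V'` with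
`p = c0`, then `c1 π (ε/2)² ≤ ∫ a` (open and closed argument; area of the image).
PROOF.  `W = {w | τ' < Re w < τ'', 0 ≤ Im w < 2π, ‖p w - c0‖ < ε/2, ν w ≠ 0}`, `W₁` the same without the condition on `Im w`;
`p '' W = p '' W₁` by periodicity.  `B = ball c0 (ε/2)`.  CLAIM: `B ⊆ p '' W`.  `p '' W₁` is open: `W₁` is open (`p`, `ν` continuous in
the strip), open mapping hypothesis.  `(p '' W) ∩ B` is closed in `B`: if `p w_k → c ∈ B`, `w_k ∈ W`, then a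
subsequence converges to `w` in the compact rectangle `[τ', τ''] × [0, 2π]`, `p w = c`, `‖ν w_k‖ ≥ c1` (`gap`), so
`‖ν w‖ ≥ c1`, and `Re w ≠ τ', τ''` by the hypotheses on the circles; so `w ∈ W₁`.  `B` is preconnected (convex) and meets
`p '' W` in `c0`: `B ⊆ p '' W` (`IsPreconnected.subset_clopen`-type; in Lean: `IsPreconnected.subset_of_closure_inter_subset` or
`isPreconnected_iff_subset_of_disjoint`).
AREA: `volume B ≤ volume (p '' W) ≤ ∫⁻ w in W, ENNReal.ofReal |det (fderiv ℝ p w)|`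
(`MeasureTheory.addHaar_image_le_lintegral_abs_det_fderiv`, `W` is measurable), `det = ‖deriv p w‖²`
(`fderiv ℝ p w` = multiplication by `deriv p w`: `Complex.det_..` or `LinearMap.det` of `restrictScalars`), and `c1 ‖deriv p w‖² ≤ A`
on `W` (`low`), `A ≥ 0`, so `c1 * volume B ≤ ∫⁻ over the rectangle (τ', τ'') × [0, 2π) of ofReal A = ofReal (∫ τ in τ'..τ'', a τ)`
(`Complex.volume_preserving_equiv_real_prod`, Fubini, `A` continuous on the compact rectangle); `volume B = π (ε/2)²`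
(`Complex.volume_ball`). -/
def S_Are : Prop :=
  ∀ (a b C1 c1 ε : ℝ) (c0 : ℂ) (p ν : ℂ → ℂ), 0 < C1 → 0 < c1 → 0 < ε → Str a b C1 c1 ε c0 p ν →
    (∀ w : ℂ, a < w.re → w.re < b → ∀ s ∈ 𝓝 w, p '' s ∈ 𝓝 (p w)) →
    ∀ τ' τ'' : ℝ, a < τ' → τ' < τ'' → τ'' < b →
    (∀ θ : ℝ, ‖p (τ' + θ * Complex.I) - c0‖ < ε / 2 → ν (τ' + θ * Complex.I) = 0) →
    (∀ θ : ℝ, ‖p (τ'' + θ * Complex.I) - c0‖ < ε / 2 → ν (τ'' + θ * Complex.I) = 0) →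
    (∃ w : ℂ, τ' < w.re ∧ w.re < τ'' ∧ p w = c0 ∧ ν w ≠ 0) →
    c1 * (Real.pi * (ε / 2) ^ 2) ≤ ∫ τ in τ'..τ'', aa p ν τ

/-- **Fin.** (from `S_Cal`, `S_Ric`, `S_Cir`, `S_Are`)  `S_H`.
PROOF.  `Q = C1/(c1 ε²)`, `K = 128 π² Q + 32 Q + 1`.  Suppose `C e^K ≤ |z1|` and `|z1| e^K ≤ R`.  `a = log C`, `b = log R`, `p w = P (exp w)`,
`ν w = nn (exp w)`, `z1 = exp w1`, `τ1 = Re w1`.  `Str a b C1 c1 ε c0 p ν`: `ν = n ∘ p` near `w`, so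
`AA p ν w = dv n (p w) * ‖deriv p w‖²` (identity for a real linear map `L` and `T`:
`Re (conj (L T) T) - Im (conj (L (i T)) T) = |T|² ((L 1).re + (L i).im)`).  Open mapping: `P` is not constant on the ball
(`P z1 = c0 ≠ P 0`), so open (`AnalyticOnNhd.is_constant_or_isOpen`, `AnalyticAt.eventually_constant_or_nhds_le_map_nhds`), and
`exp` is a local homeomorphism.  `S_Ric` with `M = 2 π C1`: `τ'`, `τ''` with `a ≤ 16 π C1/K²`, so `2 π a < c1 (ε/2)²`.  If the circle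
`τ'` or `τ''` meets `V'` then by `S_Cir` `‖P - c0‖ < ε` on a circle `|z| = e^τ`, and at `0` by the maximum principle
(`Complex.norm_le_of_forall_mem_frontier_norm_le`-type; strict by compactness of the circle): contradiction.  Otherwise `S_Are`:
`c1 π ε²/4 ≤ ∫_(τ')^(τ'') a ≤ 4 M/K = 8 π C1/K` (`a ≥ 0`), contradiction with `K > 32 Q`. -/
abbrev M_Fin : Prop := S_H

end Pool.Agent.N465591
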