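import Pool.Agent.Lib.MP_465591_an.N.H.Spec

/-!
# MP_465591_an, Theorem N, part H, module Are: open-closed argument and area of the image
-/

set_option autoImplicit false

open Filter Topology MeasureTheory Set

noncomputable section

namespace Pool.Agent.N465591

/-- the determinant of the multiplication by `z` -/
private theorem Are_det (z : ℂ) : (z • (1 : ℂ →L[ℝ] ℂ)).det = ‖z‖ ^ 2 := by
  have h1 : (z • (1 : ℂ →L[ℝ] ℂ)).det = Algebra.norm ℝ z := by
    rw [Algebra.norm_apply, ContinuousLinearMap.det]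
    congr 1
  rw [h1, Algebra.norm_complex_apply, Complex.normSq_eq_norm_sq]

/-- the points between the two circles, one fundamental domain -/
private def Are_W (τ' τ'' ε : ℝ) (c0 : ℂ) (p ν : ℂ → ℂ) : Set ℂ :=
  {w | τ' < w.re ∧ w.re < τ'' ∧ 0 ≤ w.im ∧ w.im < 2 * Real.pi ∧ ‖p w - c0‖ < ε / 2 ∧ ν w ≠ 0}

private def Are_W1 (τ' τ'' ε : ℝ) (c0 : ℂ) (p ν : ℂ → ℂ) : Set ℂ :=
  {w | τ' < w.re ∧ w.re < τ'' ∧ ‖p w - c0‖ < ε / 2 ∧ ν w ≠ 0}

private def Are_R (τ' τ'' : ℝ) : Set ℂ := Icc τ' τ'' ×ℂ Icc 0 (2 * Real.pi)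

private theorem Are_Rc (τ' τ'' : ℝ) : IsCompact (Are_R τ' τ'') :=
  isCompact_Icc.reProdIm isCompact_Icc

private theorem Are_per {a b C1 c1 ε : ℝ} {c0 : ℂ} {p ν : ℂ → ℂ}
    (hS : Str a b C1 c1 ε c0 p ν) (w : ℂ) (h1 : a < w.re) (h2 : w.re < b) (m : ℤ) :
    p (w + m • (2 * Real.pi * Complex.I)) = p w ∧ ν (w + m • (2 * Real.pi * Complex.I)) = ν w := by
  have hre : ∀ m : ℤ, (w + m • (2 * Real.pi * Complex.I)).re = w.re := by
    intro m
    simp
  induction m using Int.induction_on with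
  | zero => simp
  | succ k ih =>
    have e : w + ((k : ℤ) + 1) • (2 * Real.pi * Complex.I) =
        (w + (k : ℤ) • (2 * Real.pi * Complex.I)) + 2 * Real.pi * Complex.I := by
      rw [add_smul, one_smul, add_assoc]
    rw [e, hS.pper _ (by rw [hre]; exact h1) (by rw [hre]; exact h2),
      hS.νper _ (by rw [hre]; exact h1) (by rw [hre]; exact h2)]
    exact ih
  | pred k ih =>
    have e : w + (-(k : ℤ)) • (2 * Real.pi * Complex.I) =
        (w + (-(k : ℤ) - 1) • (2 * Real.pi * Complex.I)) + 2 * Real.pi * Complex.I := by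
      rw [sub_smul, one_smul]
      ring
    rw [e, hS.pper _ (by rw [hre]; exact h1) (by rw [hre]; exact h2),
      hS.νper _ (by rw [hre]; exact h1) (by rw [hre]; exact h2)] at ih
    exact ih

private theorem Are_img {a b C1 c1 ε τ' τ'' : ℝ} {c0 : ℂ} {p ν : ℂ → ℂ}
    (hS : Str a b C1 c1 ε c0 p ν) (ha : a < τ') (hb : τ'' < b) :
    p '' Are_W1 τ' τ'' ε c0 p ν = p '' Are_W τ' τ'' ε c0 p ν := by
  apply Set.Subset.antisymm
  · rintro _ ⟨w, ⟨h1, h2, h3, h4⟩, rfl⟩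
    obtain ⟨m, hm, -⟩ := existsUnique_add_zsmul_mem_Ico Real.two_pi_pos w.im 0
    have him : (w + m • (2 * Real.pi * Complex.I)).im = w.im + m • (2 * Real.pi) := by
      simp
    have hre : (w + m • (2 * Real.pi * Complex.I)).re = w.re := by
      simp
    obtain ⟨hp, hν⟩ := Are_per hS w (ha.trans h1) (h2.trans hb) m
    refine ⟨w + m • (2 * Real.pi * Complex.I), ⟨?_, ?_, ?_, ?_, ?_, ?_⟩, hp⟩
    · rw [hre]; exact h1
    · rw [hre]; exact h2
    · rw [him]; exact hm.1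
    · rw [him]
      have := hm.2
      rwa [zero_add] at this
    · rw [hp]; exact h3
    · rw [hν]; exact h4
  · rintro _ ⟨w, ⟨h1, h2, -, -, h3, h4⟩, rfl⟩
    exact ⟨w, ⟨h1, h2, h3, h4⟩, rfl⟩

private theorem Are_ball {a b C1 c1 ε τ' τ'' : ℝ} {c0 : ℂ} {p ν : ℂ → ℂ}
    (hc1 : 0 < c1) (hε : 0 < ε)
    (hS : Str a b C1 c1 ε c0 p ν)
    (hop : ∀ w : ℂ, a < w.re → w.re < b → ∀ s ∈ 𝓝 w, p '' s ∈ 𝓝 (p w))
    (ha : a < τ') (hb : τ'' < b)
    (h1 : ∀ θ : ℝ, ‖p (τ' + θ * Complex.I) - c0‖ < ε / 2 → ν (τ' + θ * Complex.I) = 0)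
    (h2 : ∀ θ : ℝ, ‖p (τ'' + θ * Complex.I) - c0‖ < ε / 2 → ν (τ'' + θ * Complex.I) = 0)
    (h3 : ∃ w : ℂ, τ' < w.re ∧ w.re < τ'' ∧ p w = c0 ∧ ν w ≠ 0) :
    Metric.ball c0 (ε / 2) ⊆ p '' Are_W τ' τ'' ε c0 p ν := by
  have hpc : ContinuousOn p (Are_R τ' τ'') := fun w hw =>
    (hS.hol w (lt_of_lt_of_le ha hw.1.1) (lt_of_le_of_lt hw.1.2 hb)).continuousAt.continuousWithinAt
  have hνc : ContinuousOn ν (Are_R τ' τ'') := fun w hw =>
    (hS.smo w (lt_of_lt_of_le ha hw.1.1) (lt_of_le_of_lt hw.1.2 hb)).continuousAt.continuousWithinAt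
  -- open
  have hopen : IsOpen (p '' Are_W1 τ' τ'' ε c0 p ν) := by
    rw [isOpen_iff_mem_nhds]
    rintro _ ⟨w, hw, rfl⟩
    obtain ⟨w1, w2, w3, w4⟩ := hw
    refine hop w (ha.trans w1) (w2.trans hb) _ ?_
    have e1 := Complex.continuous_re.tendsto w
    have e2 : ContinuousAt (fun z => ‖p z - c0‖) w :=
      ((hS.hol w (ha.trans w1) (w2.trans hb)).continuousAt.sub continuousAt_const).norm
    have e3 : ContinuousAt ν w := (hS.smo w (ha.trans w1) (w2.trans hb)).continuousAt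
    filter_upwards [e1.eventually (lt_mem_nhds w1), e1.eventually (gt_mem_nhds w2),
      e2.tendsto.eventually (gt_mem_nhds w3), e3.eventually_ne w4] with z z1 z2 z3 z4
    exact ⟨z1, z2, z3, z4⟩
  -- the compact set
  have hKc : IsCompact (Are_R τ' τ'' ∩ {w | c1 ≤ ‖ν w‖}) := by
    have h5 : IsClosed (Are_R τ' τ'' ∩ (fun w => ‖ν w‖) ⁻¹' Ici c1) :=
      hνc.norm.preimage_isClosed_of_isClosed (Are_Rc τ' τ'').isClosed isClosed_Ici
    exact (Are_Rc τ' τ'').of_isClosed_subset h5 inter_subset_left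
  have hsub : p '' Are_W1 τ' τ'' ε c0 p ν ⊆ p '' (Are_R τ' τ'' ∩ {w | c1 ≤ ‖ν w‖}) := by
    rw [Are_img hS ha hb]
    refine Set.image_mono ?_
    rintro w ⟨w1, w2, w3, w4, w5, w6⟩
    refine ⟨⟨⟨w1.le, w2.le⟩, ⟨w3, w4.le⟩⟩, ?_⟩
    exact hS.gap w (ha.trans w1) (w2.trans hb) (by linarith) w6
  have hclo : closure (p '' Are_W1 τ' τ'' ε c0 p ν) ⊆ p '' (Are_R τ' τ'' ∩ {w | c1 ≤ ‖ν w‖}) :=
    closure_minimal hsub ((hKc.image_of_continuousOn (hpc.mono inter_subset_left)).isClosed)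
  rw [← Are_img hS ha hb]
  refine IsPreconnected.subset_of_closure_inter_subset
    (convex_ball c0 (ε / 2)).isPreconnected hopen ?_ ?_
  · obtain ⟨w, w1, w2, w3, w4⟩ := h3
    refine ⟨c0, Metric.mem_ball_self (by linarith), w, ⟨w1, w2, ?_, w4⟩, w3⟩
    rw [w3, sub_self, norm_zero]
    linarith
  · rintro c ⟨hc, hcb⟩
    obtain ⟨w, ⟨hw, hwν⟩, rfl⟩ := hclo hc
    have hwν' : c1 ≤ ‖ν w‖ := hwν
    have hν0 : ν w ≠ 0 := by
      intro h
      rw [h, norm_zero] at hwν'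
      linarith
    have hcb' : ‖p w - c0‖ < ε / 2 := by
      rw [← dist_eq_norm]
      exact hcb
    refine ⟨w, ⟨?_, ?_, hcb', hν0⟩, rfl⟩
    · rcases hw.1.1.lt_or_eq with h | h
      · exact h
      · exfalso
        have e : w = (τ' : ℂ) + (w.im : ℂ) * Complex.I := by
          rw [h]
          exact (Complex.re_add_im w).symm
        rw [e] at hcb' hν0
        exact hν0 (h1 _ hcb')
    · rcases hw.1.2.lt_or_eq with h | h
      · exact h
      · exfalso
        have e : w = (τ'' : ℂ) + (w.im : ℂ) * Complex.I := by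
          rw [← h]
          exact (Complex.re_add_im w).symm
        rw [e] at hcb' hν0
        exact hν0 (h2 _ hcb')

/-- Fubini on the rectangle -/
private theorem Are_fub {A : ℂ → ℝ} {τ' τ'' : ℝ} (h : τ' ≤ τ'')
    (hA : ContinuousOn A (Are_R τ' τ'')) :
    ∫ w in Are_R τ' τ'', A w = ∫ τ in τ'..τ'', ∫ θ in (0 : ℝ)..(2 * Real.pi),
      A (τ + θ * Complex.I) := by
  have hpi := Real.pi_pos
  have e1 := Complex.volume_preserving_equiv_real_prod.symm.setIntegral_preimage_emb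
    Complex.measurableEquivRealProd.symm.measurableEmbedding A (Are_R τ' τ'')
  have e2 : Complex.measurableEquivRealProd.symm ⁻¹' (Are_R τ' τ'') =
      Icc τ' τ'' ×ˢ Icc 0 (2 * Real.pi) := by
    ext z
    rfl
  have e3 : ∀ z : ℝ × ℝ, Complex.measurableEquivRealProd.symm z = (z.1 : ℂ) + z.2 * Complex.I := by
    intro z
    exact Complex.mk_eq_add_mul_I _ _
  rw [← e1, e2]
  have hcont : ContinuousOn (fun z : ℝ × ℝ => A (Complex.measurableEquivRealProd.symm z))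
      (Icc τ' τ'' ×ˢ Icc 0 (2 * Real.pi)) := by
    have h1 : Continuous fun z : ℝ × ℝ => (z.1 : ℂ) + z.2 * Complex.I := by fun_prop
    have h2 : (fun z : ℝ × ℝ => A (Complex.measurableEquivRealProd.symm z)) =
        A ∘ fun z : ℝ × ℝ => (z.1 : ℂ) + z.2 * Complex.I := by
      funext z
      rw [e3]
      rfl
    rw [h2]
    refine hA.comp h1.continuousOn ?_
    rintro z hz
    change ((z.1 : ℂ) + z.2 * Complex.I) ∈ Are_R τ' τ''
    rw [← e3]
    rw [← e2] at hz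
    exact hz
  have hint : IntegrableOn (fun z : ℝ × ℝ => A (Complex.measurableEquivRealProd.symm z))
      (Icc τ' τ'' ×ˢ Icc 0 (2 * Real.pi)) (volume.prod volume) :=
    hcont.integrableOn_compact (isCompact_Icc.prod isCompact_Icc)
  have e4 := MeasureTheory.setIntegral_prod _ hint
  refine e4.trans ?_
  rw [intervalIntegral.integral_of_le h, integral_Icc_eq_integral_Ioc]
  refine setIntegral_congr_fun measurableSet_Ioc fun x _ => ?_
  rw [intervalIntegral.integral_of_le (by positivity), integral_Icc_eq_integral_Ioc]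
  refine setIntegral_congr_fun measurableSet_Ioc fun y _ => ?_
  rw [e3]

theorem tAre : S_Cal → S_Are := by
  intro hCal a b C1 c1 ε c0 p ν hC1 hc1 hε hS hop τ' τ'' ha hlt hb h1 h2 h3
  obtain ⟨-, -, -, hA⟩ := hCal a b C1 c1 ε c0 p ν hC1 hS
  have hball := Are_ball hc1 hε hS hop ha hb h1 h2 h3
  have hRa : ∀ w ∈ Are_R τ' τ'', a < w.re ∧ w.re < b := fun w hw =>
    ⟨lt_of_lt_of_le ha hw.1.1, lt_of_le_of_lt hw.1.2 hb⟩
  have hWR : Are_W τ' τ'' ε c0 p ν ⊆ Are_R τ' τ'' := by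
    rintro w ⟨w1, w2, w3, w4, -, -⟩
    exact ⟨⟨w1.le, w2.le⟩, ⟨w3, w4.le⟩⟩
  have hAc : ContinuousOn (AA p ν) (Are_R τ' τ'') := fun w hw =>
    (hA w (hRa w hw).1 (hRa w hw).2).1.continuousWithinAt
  have hWm : MeasurableSet (Are_W τ' τ'' ε c0 p ν) := by
    have hopen1 : IsOpen (Are_W1 τ' τ'' ε c0 p ν) := by
      rw [isOpen_iff_mem_nhds]
      rintro w ⟨w1, w2, w3, w4⟩
      have e1 := Complex.continuous_re.tendsto w
      have e2 : ContinuousAt (fun z => ‖p z - c0‖) w :=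
        ((hS.hol w (ha.trans w1) (w2.trans hb)).continuousAt.sub continuousAt_const).norm
      have e3 : ContinuousAt ν w := (hS.smo w (ha.trans w1) (w2.trans hb)).continuousAt
      filter_upwards [e1.eventually (lt_mem_nhds w1), e1.eventually (gt_mem_nhds w2),
        e2.tendsto.eventually (gt_mem_nhds w3), e3.eventually_ne w4] with z z1 z2 z3 z4
      exact ⟨z1, z2, z3, z4⟩
    have e : Are_W τ' τ'' ε c0 p ν = Are_W1 τ' τ'' ε c0 p ν ∩
        Complex.im ⁻¹' Ico 0 (2 * Real.pi) := by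
      ext w
      constructor
      · rintro ⟨w1, w2, w3, w4, w5, w6⟩
        exact ⟨⟨w1, w2, w5, w6⟩, w3, w4⟩
      · rintro ⟨⟨w1, w2, w5, w6⟩, w3, w4⟩
        exact ⟨w1, w2, w3, w4, w5, w6⟩
    rw [e]
    exact hopen1.measurableSet.inter (Complex.measurable_im measurableSet_Ico)
  have hvol : volume (Metric.ball c0 (ε / 2)) ≤
      ∫⁻ w in Are_W τ' τ'' ε c0 p ν, ENNReal.ofReal (‖deriv p w‖ ^ 2) := by
    refine (measure_mono hball).trans ?_
    have h5 := addHaar_image_le_lintegral_abs_det_fderiv (volume : Measure ℂ) hWm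
      (f := p) (f' := fun w => deriv p w • (1 : ℂ →L[ℝ] ℂ)) (fun w hw =>
        ((hS.hol w (hRa w (hWR hw)).1
          (hRa w (hWR hw)).2).differentiableAt.hasDerivAt.complexToReal_fderiv).hasFDerivWithinAt)
    refine h5.trans (le_of_eq ?_)
    refine lintegral_congr fun w => ?_
    rw [Are_det, abs_of_nonneg (by positivity)]
  have hmain : ENNReal.ofReal c1 * volume (Metric.ball c0 (ε / 2)) ≤
      ENNReal.ofReal (∫ w in Are_R τ' τ'', AA p ν w) := by
    have hint : IntegrableOn (AA p ν) (Are_R τ' τ'') :=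
      hAc.integrableOn_compact (Are_Rc τ' τ'')
    have h0 : 0 ≤ᵐ[volume.restrict (Are_R τ' τ'')] AA p ν := by
      refine (ae_restrict_iff' (Are_Rc τ' τ'').isClosed.measurableSet).2
        (Filter.Eventually.of_forall fun w hw => ?_)
      exact (hA w (hRa w hw).1 (hRa w hw).2).2
    rw [ofReal_integral_eq_lintegral_ofReal hint h0]
    calc ENNReal.ofReal c1 * volume (Metric.ball c0 (ε / 2))
        ≤ ENNReal.ofReal c1 *
          ∫⁻ w in Are_W τ' τ'' ε c0 p ν, ENNReal.ofReal (‖deriv p w‖ ^ 2) := by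
          gcongr
      _ = ∫⁻ w in Are_W τ' τ'' ε c0 p ν,
          ENNReal.ofReal c1 * ENNReal.ofReal (‖deriv p w‖ ^ 2) := by
          rw [lintegral_const_mul' _ _ ENNReal.ofReal_ne_top]
      _ ≤ ∫⁻ w in Are_W τ' τ'' ε c0 p ν, ENNReal.ofReal (AA p ν w) := by
          refine setLIntegral_mono' hWm fun w hw => ?_
          rw [← ENNReal.ofReal_mul hc1.le]
          refine ENNReal.ofReal_le_ofReal ?_
          obtain ⟨w1, w2, -, -, w5, w6⟩ := hw
          exact hS.low w (ha.trans w1) (w2.trans hb) (by linarith) w6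
      _ ≤ ∫⁻ w in Are_R τ' τ'', ENNReal.ofReal (AA p ν w) := lintegral_mono_set hWR
  have hI0 : 0 ≤ ∫ w in Are_R τ' τ'', AA p ν w :=
    setIntegral_nonneg (Are_Rc τ' τ'').isClosed.measurableSet fun w hw =>
      (hA w (hRa w hw).1 (hRa w hw).2).2
  rw [Complex.volume_ball] at hmain
  have hfin : c1 * (Real.pi * (ε / 2) ^ 2) ≤ ∫ w in Are_R τ' τ'', AA p ν w := by
    have h5 : ENNReal.ofReal (c1 * (Real.pi * (ε / 2) ^ 2)) ≤
        ENNReal.ofReal (∫ w in Are_R τ' τ'', AA p ν w) := by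
      refine le_trans (le_of_eq ?_) hmain
      rw [ENNReal.ofReal_mul hc1.le, ENNReal.ofReal_mul Real.pi_pos.le,
        ENNReal.ofReal_pow (by linarith), mul_comm (ENNReal.ofReal Real.pi)]
      congr 2
      rw [← ENNReal.ofReal_coe_nnreal]
      rfl
    exact (ENNReal.ofReal_le_ofReal_iff hI0).1 h5
  rw [Are_fub hlt.le hAc] at hfin
  exact hfin

end Pool.Agent.N465591
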