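import Pool.Agent.Lib.MP_465591_an.N.H.Spec

/-!
# MP_465591_an, Theorem N, part H: module Cal (derivative under the integral, Cauchy-Schwarz)
-/

set_option autoImplicit false

open Filter Topology MeasureTheory

noncomputable section

namespace Pool.Agent.N465591

/-! ## A. General facts on functions in the strip -/

private lemma Cal_path (x θ : ℝ) : ((x : ℂ) + θ * Complex.I).re = x := by simp

private lemma Cal_cont_path : Continuous (fun q : ℝ × ℝ => ((q.1 : ℂ) + q.2 * Complex.I)) := by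
  fun_prop

/-- A function continuous in the strip is continuous along a vertical line. -/
private lemma Cal_line {a b : ℝ} {H : ℂ → ℝ} (hH : ∀ w : ℂ, a < w.re → w.re < b → ContinuousAt H w)
    {x : ℝ} (h1 : a < x) (h2 : x < b) : Continuous (fun θ : ℝ => H (x + θ * Complex.I)) := by
  rw [continuous_iff_continuousAt]
  intro θ
  have h3 : ContinuousAt H (x + θ * Complex.I) := hH _ (by simpa using h1) (by simpa using h2)
  have h4 : ContinuousAt (fun θ : ℝ => ((x : ℂ) + θ * Complex.I)) θ := by fun_prop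
  exact ContinuousAt.comp (f := fun θ : ℝ => ((x : ℂ) + θ * Complex.I)) h3 h4

/-- A function continuous in the strip is bounded on small rectangles. -/
private lemma Cal_bound {a b : ℝ} {H : ℂ → ℝ} (hH : ∀ w : ℂ, a < w.re → w.re < b → ContinuousAt H w)
    {x : ℝ} (h1 : a < x) (h2 : x < b) : ∃ δ C : ℝ, 0 < δ ∧ a < x - δ ∧ x + δ < b ∧
      ∀ y ∈ Metric.ball x δ, ∀ θ ∈ Set.Icc (0 : ℝ) (2 * Real.pi), ‖H (y + θ * Complex.I)‖ ≤ C := by
  obtain ⟨δ, hδ, hδ1, hδ2⟩ : ∃ δ : ℝ, 0 < δ ∧ a < x - δ ∧ x + δ < b := by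
    refine ⟨min (x - a) (b - x) / 2, ?_, ?_, ?_⟩
    · have := lt_min (sub_pos.2 h1) (sub_pos.2 h2)
      linarith
    · have := min_le_left (x - a) (b - x)
      have := lt_min (sub_pos.2 h1) (sub_pos.2 h2)
      linarith
    · have := min_le_right (x - a) (b - x)
      have := lt_min (sub_pos.2 h1) (sub_pos.2 h2)
      linarith
  have hK : IsCompact ((fun q : ℝ × ℝ => ((q.1 : ℂ) + q.2 * Complex.I)) ''
      (Set.Icc (x - δ) (x + δ) ×ˢ Set.Icc (0 : ℝ) (2 * Real.pi))) :=
    (isCompact_Icc.prod isCompact_Icc).image Cal_cont_path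
  have hc : ContinuousOn H ((fun q : ℝ × ℝ => ((q.1 : ℂ) + q.2 * Complex.I)) ''
      (Set.Icc (x - δ) (x + δ) ×ˢ Set.Icc (0 : ℝ) (2 * Real.pi))) := by
    rintro _ ⟨⟨y, θ⟩, ⟨⟨hy1, hy2⟩, -⟩, rfl⟩
    refine (hH _ ?_ ?_).continuousWithinAt
    · rw [Cal_path]
      exact lt_of_lt_of_le hδ1 hy1
    · rw [Cal_path]
      exact lt_of_le_of_lt hy2 hδ2
  obtain ⟨C, hC⟩ := hK.exists_bound_of_continuousOn hc
  refine ⟨δ, C, hδ, hδ1, hδ2, fun y hy θ hθ => hC _ ⟨(y, θ), ⟨?_, hθ⟩, rfl⟩⟩
  rw [Real.ball_eq_Ioo] at hy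
  exact ⟨hy.1.le, hy.2.le⟩

private lemma Cal_uIoc {θ : ℝ} (h : θ ∈ Set.uIoc (0 : ℝ) (2 * Real.pi)) :
    θ ∈ Set.Icc (0 : ℝ) (2 * Real.pi) := by
  rw [Set.uIoc_of_le Real.two_pi_pos.le] at h
  exact ⟨h.1.le, h.2⟩

/-- Continuity of the mean. -/
private lemma Cal_mean_cont {a b : ℝ} {H : ℂ → ℝ}
    (hH : ∀ w : ℂ, a < w.re → w.re < b → ContinuousAt H w) {x : ℝ} (h1 : a < x) (h2 : x < b) :
    ContinuousAt (fun y : ℝ => ∫ θ in (0 : ℝ)..(2 * Real.pi), H (y + θ * Complex.I)) x := by
  obtain ⟨δ, C, hδ, hδ1, hδ2, hC⟩ := Cal_bound hH h1 h2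
  have hn : Metric.ball x δ ∈ 𝓝 x := Metric.ball_mem_nhds x hδ
  refine intervalIntegral.continuousAt_of_dominated_interval (bound := fun _ => C) ?_ ?_ ?_ ?_
  · filter_upwards [hn] with y hy
    rw [Real.ball_eq_Ioo] at hy
    exact (Cal_line hH (hδ1.trans hy.1) (hy.2.trans hδ2)).aestronglyMeasurable
  · filter_upwards [hn] with y hy
    exact Filter.Eventually.of_forall fun θ hθ => hC y hy θ (Cal_uIoc hθ)
  · exact intervalIntegrable_const
  · refine Filter.Eventually.of_forall fun θ _ => ?_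
    have h3 : ContinuousAt H (x + θ * Complex.I) := hH _ (by simpa using h1) (by simpa using h2)
    have h4 : ContinuousAt (fun y : ℝ => ((y : ℂ) + θ * Complex.I)) x := by fun_prop
    exact ContinuousAt.comp (f := fun y : ℝ => ((y : ℂ) + θ * Complex.I)) h3 h4

/-- Derivative of the mean. -/
private lemma Cal_mean_deriv {a b : ℝ} {H B : ℂ → ℝ}
    (hH : ∀ w : ℂ, a < w.re → w.re < b → ContinuousAt H w)
    (hB : ∀ w : ℂ, a < w.re → w.re < b → ContinuousAt B w)
    (hd : ∀ x θ : ℝ, a < x → x < b →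
      HasDerivAt (fun y : ℝ => H (y + θ * Complex.I)) (B (x + θ * Complex.I)) x)
    {x : ℝ} (h1 : a < x) (h2 : x < b) :
    HasDerivAt (fun y : ℝ => ∫ θ in (0 : ℝ)..(2 * Real.pi), H (y + θ * Complex.I))
      (∫ θ in (0 : ℝ)..(2 * Real.pi), B (x + θ * Complex.I)) x := by
  obtain ⟨δ, C, hδ, hδ1, hδ2, hC⟩ := Cal_bound hB h1 h2
  have hn : Metric.ball x δ ∈ 𝓝 x := Metric.ball_mem_nhds x hδ
  refine (intervalIntegral.hasDerivAt_integral_of_dominated_loc_of_deriv_le
    (F := fun (y : ℝ) (θ : ℝ) => H (y + θ * Complex.I))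
    (F' := fun (y : ℝ) (θ : ℝ) => B (y + θ * Complex.I))
    (bound := fun _ => C) hn ?_ ?_ ?_ ?_ ?_ ?_).2
  · filter_upwards [hn] with y hy
    rw [Real.ball_eq_Ioo] at hy
    exact (Cal_line hH (hδ1.trans hy.1) (hy.2.trans hδ2)).aestronglyMeasurable
  · exact (Cal_line hH h1 h2).intervalIntegrable _ _
  · exact (Cal_line hB h1 h2).aestronglyMeasurable
  · exact Filter.Eventually.of_forall fun θ hθ y hy => hC y hy θ (Cal_uIoc hθ)
  · exact intervalIntegrable_const
  · refine Filter.Eventually.of_forall fun θ _ y hy => ?_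
    rw [Real.ball_eq_Ioo] at hy
    exact hd y θ (hδ1.trans hy.1) (hy.2.trans hδ2)

/-! ## B. The derivatives of `conj ν * T` -/

/-- Derivative of `conj ν * T` along a real line with direction `v`. -/
private lemma Cal_der {p ν : ℂ → ℂ} {w v : ℂ} {x : ℝ} {g : ℝ → ℂ} (hg : HasDerivAt g v x)
    (hgx : g x = w) (hp : AnalyticAt ℂ p w) (hν : ContDiffAt ℝ 1 ν w) :
    HasDerivAt (fun y => (starRingEnd ℂ) (ν (g y)) * deriv p (g y))
      ((starRingEnd ℂ) (fderiv ℝ ν w v) * deriv p w +
        (starRingEnd ℂ) (ν w) * (deriv (deriv p) w * v)) x := by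
  subst hgx
  have h1 : HasDerivAt (fun y => ν (g y)) (fderiv ℝ ν (g x) v) x := by
    have h2 : HasFDerivAt ν (fderiv ℝ ν (g x)) (g x) :=
      (hν.differentiableAt one_ne_zero).hasFDerivAt
    exact h2.comp_hasDerivAt x hg
  have h3 : HasDerivAt (fun y => (starRingEnd ℂ) (ν (g y)))
      ((starRingEnd ℂ) (fderiv ℝ ν (g x) v)) x := by
    have h4 := (Complex.conjCLE.toContinuousLinearMap.hasFDerivAt (x := ν (g x))).comp_hasDerivAt x h1
    exact h4
  have h5 : HasDerivAt (fun y => deriv p (g y)) (deriv (deriv p) (g x) * v) x := by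
    have h6 : HasDerivAt (deriv p) (deriv (deriv p) (g x)) (g x) :=
      hp.deriv.differentiableAt.hasDerivAt
    exact h6.comp_of_eq x hg rfl
  exact h3.mul h5

private lemma Cal_gx (x θ : ℝ) : HasDerivAt (fun y : ℝ => ((y : ℂ) + θ * Complex.I)) 1 x :=
  (HasDerivAt.ofReal_comp (hasDerivAt_id x)).add_const _

private lemma Cal_gθ (x θ : ℝ) : HasDerivAt (fun t : ℝ => ((x : ℂ) + t * Complex.I)) Complex.I θ := by
  have h := ((HasDerivAt.ofReal_comp (hasDerivAt_id θ)).mul_const Complex.I).const_add (x : ℂ)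
  simpa using h

private lemma Cal_reCLM {f : ℝ → ℂ} {f' : ℂ} {x : ℝ} (h : HasDerivAt f f' x) :
    HasDerivAt (fun y => (f y).re) f'.re x :=
  (Complex.reCLM.hasFDerivAt (x := f x)).comp_hasDerivAt x h

private lemma Cal_imCLM {f : ℝ → ℂ} {f' : ℂ} {x : ℝ} (h : HasDerivAt f f' x) :
    HasDerivAt (fun y => (f y).im) f'.im x :=
  (Complex.imCLM.hasFDerivAt (x := f x)).comp_hasDerivAt x h

/-! ## C. Cauchy-Schwarz -/

private lemma Cal_cs {g : ℝ → ℝ} (hg : Continuous g) :
    (∫ θ in (0 : ℝ)..(2 * Real.pi), g θ) ^ 2 ≤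
      2 * Real.pi * ∫ θ in (0 : ℝ)..(2 * Real.pi), g θ ^ 2 := by
  set I := ∫ θ in (0 : ℝ)..(2 * Real.pi), g θ with hI
  set J := ∫ θ in (0 : ℝ)..(2 * Real.pi), g θ ^ 2 with hJ
  have hp := Real.two_pi_pos
  have h0 : 0 ≤ ∫ θ in (0 : ℝ)..(2 * Real.pi), (2 * Real.pi * g θ - I) ^ 2 :=
    intervalIntegral.integral_nonneg hp.le (fun θ _ => sq_nonneg _)
  have h1 : ∫ θ in (0 : ℝ)..(2 * Real.pi), (2 * Real.pi * g θ - I) ^ 2 =
      (2 * Real.pi) ^ 2 * J - 2 * (2 * Real.pi) * I * I + I ^ 2 * (2 * Real.pi) := by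
    have e : ∀ θ : ℝ, (2 * Real.pi * g θ - I) ^ 2 =
        (2 * Real.pi) ^ 2 * g θ ^ 2 - 2 * (2 * Real.pi) * I * g θ + I ^ 2 := fun θ => by ring
    simp only [e]
    rw [intervalIntegral.integral_add, intervalIntegral.integral_sub,
      intervalIntegral.integral_const_mul, intervalIntegral.integral_const_mul,
      intervalIntegral.integral_const, ← hI, ← hJ, smul_eq_mul]
    · ring
    · exact (Continuous.intervalIntegrable (by fun_prop) _ _)
    · exact (Continuous.intervalIntegrable (by fun_prop) _ _)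
    · exact (Continuous.intervalIntegrable (by fun_prop) _ _)
    · exact (Continuous.intervalIntegrable (by fun_prop) _ _)
  rw [h1] at h0
  have h2 : 0 ≤ (2 * Real.pi) * (2 * Real.pi * J - I ^ 2) := by nlinarith
  have h3 := nonneg_of_mul_nonneg_right h2 hp
  linarith

/-! ## D. The theorem -/

theorem tCal : S_Cal := by
  intro a b C1 c1 ε c0 p ν hC1 hS
  have cT : ∀ w : ℂ, a < w.re → w.re < b → ContinuousAt (deriv p) w := fun w h1 h2 =>
    (hS.hol w h1 h2).deriv.continuousAt
  have cT' : ∀ w : ℂ, a < w.re → w.re < b → ContinuousAt (deriv (deriv p)) w := fun w h1 h2 =>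
    (hS.hol w h1 h2).deriv.deriv.continuousAt
  have cν : ∀ w : ℂ, a < w.re → w.re < b → ContinuousAt ν w := fun w h1 h2 =>
    (hS.smo w h1 h2).continuousAt
  have cD : ∀ v : ℂ, ∀ w : ℂ, a < w.re → w.re < b → ContinuousAt (fun z => fderiv ℝ ν z v) w :=
    fun v w h1 h2 => by
      have h3 : ContinuousAt (fderiv ℝ ν) w := (hS.smo w h1 h2).continuousAt_fderiv one_ne_zero
      exact h3.clm_apply continuousAt_const
  have cgg : ∀ w : ℂ, a < w.re → w.re < b → ContinuousAt (gg p ν) w := fun w h1 h2 =>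
    Complex.continuous_re.continuousAt.comp
      ((Complex.continuous_conj.continuousAt.comp (cν w h1 h2)).mul (cT w h1 h2))
  have cAA : ∀ w : ℂ, a < w.re → w.re < b → ContinuousAt (AA p ν) w := fun w h1 h2 =>
    (Complex.continuous_re.continuousAt.comp
      ((Complex.continuous_conj.continuousAt.comp (cD 1 w h1 h2)).mul (cT w h1 h2))).sub
    (Complex.continuous_im.continuousAt.comp
      ((Complex.continuous_conj.continuousAt.comp (cD Complex.I w h1 h2)).mul (cT w h1 h2)))
  have hA0 : ∀ w : ℂ, a < w.re → w.re < b → 0 ≤ AA p ν w := by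
    intro w h1 h2
    have h3 : 0 ≤ C1 * AA p ν w :=
      le_trans (mul_nonneg (sq_nonneg _) (sq_nonneg _)) (hS.ine w h1 h2)
    exact nonneg_of_mul_nonneg_right h3 hC1
  refine ⟨?_, ?_, ?_, fun w h1 h2 => ⟨cAA w h1 h2, hA0 w h1 h2⟩⟩
  · intro τ h1 h2
    -- the derivative in the direction `τ`
    let B : ℂ → ℝ := fun w => ((starRingEnd ℂ) (fderiv ℝ ν w 1) * deriv p w +
        (starRingEnd ℂ) (ν w) * (deriv (deriv p) w * 1)).re
    let E : ℂ → ℝ := fun w => ((starRingEnd ℂ) (fderiv ℝ ν w Complex.I) * deriv p w +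
        (starRingEnd ℂ) (ν w) * (deriv (deriv p) w * Complex.I)).im
    have cB : ∀ w : ℂ, a < w.re → w.re < b → ContinuousAt B w := fun w h1 h2 =>
      Complex.continuous_re.continuousAt.comp
        (((Complex.continuous_conj.continuousAt.comp (cD 1 w h1 h2)).mul (cT w h1 h2)).add
          ((Complex.continuous_conj.continuousAt.comp (cν w h1 h2)).mul
            ((cT' w h1 h2).mul continuousAt_const)))
    have cE : ∀ w : ℂ, a < w.re → w.re < b → ContinuousAt E w := fun w h1 h2 =>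
      Complex.continuous_im.continuousAt.comp
        (((Complex.continuous_conj.continuousAt.comp (cD Complex.I w h1 h2)).mul (cT w h1 h2)).add
          ((Complex.continuous_conj.continuousAt.comp (cν w h1 h2)).mul
            ((cT' w h1 h2).mul continuousAt_const)))
    have hd : ∀ x θ : ℝ, a < x → x < b →
        HasDerivAt (fun y : ℝ => gg p ν (y + θ * Complex.I)) (B (x + θ * Complex.I)) x := by
      intro x θ h3 h4
      have h5 : a < ((x : ℂ) + θ * Complex.I).re := by rwa [Cal_path]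
      have h6 : ((x : ℂ) + θ * Complex.I).re < b := by rwa [Cal_path]
      exact Cal_reCLM (Cal_der (Cal_gx x θ) rfl (hS.hol _ h5 h6) (hS.smo _ h5 h6))
    have h3 := Cal_mean_deriv cgg cB hd h1 h2
    have h4 : (∫ θ in (0 : ℝ)..(2 * Real.pi), B (τ + θ * Complex.I)) = aa p ν τ := by
      have h5 : ∀ w : ℂ, B w = AA p ν w + E w := by
        intro w
        simp only [B, E, AA, Complex.add_re, Complex.add_im, Complex.mul_re, Complex.mul_im,
          Complex.I_re, Complex.I_im, Complex.one_re, Complex.one_im]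
        ring
      have h6 : (∫ θ in (0 : ℝ)..(2 * Real.pi), E (τ + θ * Complex.I)) = 0 := by
        have h7 : ∀ θ ∈ Set.uIcc (0 : ℝ) (2 * Real.pi), HasDerivAt
            (fun θ : ℝ => ((starRingEnd ℂ) (ν (τ + θ * Complex.I)) *
              deriv p (τ + θ * Complex.I)).im) (E (τ + θ * Complex.I)) θ := by
          intro θ _
          have h5 : a < ((τ : ℂ) + θ * Complex.I).re := by rwa [Cal_path]
          have h6 : ((τ : ℂ) + θ * Complex.I).re < b := by rwa [Cal_path]
          exact Cal_imCLM (Cal_der (Cal_gθ τ θ) rfl (hS.hol _ h5 h6) (hS.smo _ h5 h6))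
        rw [intervalIntegral.integral_eq_sub_of_hasDerivAt h7
          ((Cal_line cE h1 h2).intervalIntegrable _ _)]
        have h8 : a < (τ : ℂ).re := by rwa [Complex.ofReal_re]
        have h9 : (τ : ℂ).re < b := by rwa [Complex.ofReal_re]
        have h10 : ν ((τ : ℂ) + ((2 * Real.pi : ℝ) : ℂ) * Complex.I) = ν τ := by
          have h11 := hS.νper τ h8 h9
          push_cast
          exact h11
        have h12 : deriv p ((τ : ℂ) + ((2 * Real.pi : ℝ) : ℂ) * Complex.I) = deriv p τ := by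
          have h13 : (fun w : ℂ => p (w + 2 * Real.pi * Complex.I)) =ᶠ[𝓝 (τ : ℂ)] p := by
            have h14 : ∀ᶠ w : ℂ in 𝓝 (τ : ℂ), a < w.re ∧ w.re < b :=
              (Complex.continuous_re.continuousAt.eventually (lt_mem_nhds h8)).and
                (Complex.continuous_re.continuousAt.eventually (gt_mem_nhds h9))
            filter_upwards [h14] with w hw
            exact hS.pper w hw.1 hw.2
          have h15 := h13.deriv_eq
          rw [deriv_comp_add_const] at h15
          push_cast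
          exact h15
        rw [h10, h12]
        simp
      have h7 : (∫ θ in (0 : ℝ)..(2 * Real.pi), B (τ + θ * Complex.I)) =
          (∫ θ in (0 : ℝ)..(2 * Real.pi), AA p ν (τ + θ * Complex.I)) +
            ∫ θ in (0 : ℝ)..(2 * Real.pi), E (τ + θ * Complex.I) := by
        rw [← intervalIntegral.integral_add ((Cal_line cAA h1 h2).intervalIntegrable _ _)
          ((Cal_line cE h1 h2).intervalIntegrable _ _)]
        exact intervalIntegral.integral_congr (fun θ _ => h5 _)
      rw [h7, h6, add_zero]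
      rfl
    rw [h4] at h3
    exact h3
  · intro τ h1 h2
    have h3 := Cal_cs (Cal_line cgg h1 h2)
    have h4 : (∫ θ in (0 : ℝ)..(2 * Real.pi), gg p ν (τ + θ * Complex.I) ^ 2) ≤
        C1 * aa p ν τ := by
      rw [aa, ← intervalIntegral.integral_const_mul]
      refine intervalIntegral.integral_mono_on Real.two_pi_pos.le
        (((Cal_line cgg h1 h2).pow 2).intervalIntegrable _ _)
        ((continuous_const.mul (Cal_line cAA h1 h2)).intervalIntegrable _ _) (fun θ _ => ?_)
      have h5 : a < ((τ : ℂ) + θ * Complex.I).re := by rwa [Cal_path]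
      have h6 : ((τ : ℂ) + θ * Complex.I).re < b := by rwa [Cal_path]
      refine le_trans ?_ (hS.ine _ h5 h6)
      rw [← mul_pow]
      refine sq_le_sq' ?_ ?_
      · have h7 := (abs_le.1 (Complex.abs_re_le_norm
          ((starRingEnd ℂ) (ν (τ + θ * Complex.I)) * deriv p (τ + θ * Complex.I)))).1
        rw [norm_mul, RCLike.norm_conj] at h7
        exact h7
      · have h7 := (abs_le.1 (Complex.abs_re_le_norm
          ((starRingEnd ℂ) (ν (τ + θ * Complex.I)) * deriv p (τ + θ * Complex.I)))).2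
        rw [norm_mul, RCLike.norm_conj] at h7
        exact h7
    calc ll p ν τ ^ 2 ≤ 2 * Real.pi *
          ∫ θ in (0 : ℝ)..(2 * Real.pi), gg p ν (τ + θ * Complex.I) ^ 2 := h3
      _ ≤ 2 * Real.pi * (C1 * aa p ν τ) :=
          mul_le_mul_of_nonneg_left h4 Real.two_pi_pos.le
      _ = 2 * Real.pi * C1 * aa p ν τ := by ring
  · intro τ hτ
    exact (Cal_mean_cont cAA hτ.1 hτ.2).continuousWithinAt

end Pool.Agent.N465591
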