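import Pool.Agent.Lib.MP_465591_an.N.H.Spec

/-!
# MP_465591_an, Theorem N, part H, module Cir: first exit argument on a circle
-/

set_option autoImplicit false

open Filter Topology MeasureTheory Set

noncomputable section

namespace Pool.Agent.N465591

private theorem Cir_perA {a b C1 c1 ε : ℝ} {c0 : ℂ} {p ν : ℂ → ℂ}
    (hS : Str a b C1 c1 ε c0 p ν) (w : ℂ) (h1 : a < w.re) (h2 : w.re < b) :
    AA p ν (w + 2 * Real.pi * Complex.I) = AA p ν w := by
  have hopen : ∀ᶠ z in 𝓝 w, a < z.re ∧ z.re < b := by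
    have h := Complex.continuous_re.tendsto w
    exact (h.eventually (lt_mem_nhds h1)).and (h.eventually (gt_mem_nhds h2))
  have hp : deriv p (w + 2 * Real.pi * Complex.I) = deriv p w := by
    rw [← deriv_comp_add_const]
    exact Filter.EventuallyEq.deriv_eq (hopen.mono fun z hz => hS.pper z hz.1 hz.2)
  have hν : fderiv ℝ ν (w + 2 * Real.pi * Complex.I) = fderiv ℝ ν w := by
    rw [← fderiv_comp_add_right]
    exact Filter.EventuallyEq.fderiv_eq (hopen.mono fun z hz => hS.νper z hz.1 hz.2)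
  rw [AA, AA, hp, hν]

theorem tCir : S_Cal → S_Cir := by
  intro hCal a b C1 c1 ε c0 p ν hC1 hc1 hε hS τ hτa hτb hsmall hθ0 θ
  obtain ⟨θ0, h0, h0ν⟩ := hθ0
  obtain ⟨-, -, -, hA⟩ := hCal a b C1 c1 ε c0 p ν hC1 hS
  have hre : ∀ θ : ℝ, ((τ : ℂ) + θ * Complex.I).re = τ := by intro θ; simp
  have hra : ∀ θ : ℝ, a < ((τ : ℂ) + θ * Complex.I).re := fun θ => by rw [hre]; exact hτa
  have hrb : ∀ θ : ℝ, ((τ : ℂ) + θ * Complex.I).re < b := fun θ => by rw [hre]; exact hτb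
  have hw : Continuous fun θ : ℝ => (τ : ℂ) + θ * Complex.I := by fun_prop
  -- the functions on the circle
  obtain ⟨φ, hφd⟩ : ∃ φ : ℝ → ℂ, ∀ θ, φ θ = p ((τ : ℂ) + θ * Complex.I) := ⟨_, fun _ => rfl⟩
  obtain ⟨T, hTd⟩ : ∃ T : ℝ → ℂ, ∀ θ, T θ = deriv p ((τ : ℂ) + θ * Complex.I) :=
    ⟨_, fun _ => rfl⟩
  obtain ⟨N, hNd⟩ : ∃ N : ℝ → ℂ, ∀ θ, N θ = ν ((τ : ℂ) + θ * Complex.I) := ⟨_, fun _ => rfl⟩
  obtain ⟨A, hAd⟩ : ∃ A : ℝ → ℝ, ∀ θ, A θ = AA p ν ((τ : ℂ) + θ * Complex.I) :=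
    ⟨_, fun _ => rfl⟩
  have hφ : ∀ θ : ℝ, HasDerivAt φ (Complex.I * T θ) θ := by
    intro θ
    have h1 : HasDerivAt p (deriv p ((τ : ℂ) + θ * Complex.I)) ((τ : ℂ) + θ * Complex.I) :=
      (hS.hol _ (hra θ) (hrb θ)).differentiableAt.hasDerivAt
    have h2 : HasDerivAt (fun θ : ℝ => (τ : ℂ) + θ * Complex.I) Complex.I θ := by
      simpa using ((Complex.ofRealCLM.hasDerivAt (x := θ)).mul_const Complex.I).const_add (τ : ℂ)
    have h3 := HasDerivAt.scomp θ h1 h2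
    rw [smul_eq_mul, ← hTd] at h3
    have h4 : φ = p ∘ fun θ : ℝ => (τ : ℂ) + θ * Complex.I := funext hφd
    rw [h4]
    exact h3
  have hφc : Continuous φ := continuous_iff_continuousAt.2 fun θ => (hφ θ).continuousAt
  have hTc : Continuous T := by
    refine continuous_iff_continuousAt.2 fun θ => ?_
    have h4 : T = deriv p ∘ fun θ : ℝ => (τ : ℂ) + θ * Complex.I := funext hTd
    rw [h4]
    exact ContinuousAt.comp (hS.hol _ (hra θ) (hrb θ)).deriv.continuousAt hw.continuousAt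
  have hNc : Continuous N := by
    refine continuous_iff_continuousAt.2 fun θ => ?_
    have h4 : N = ν ∘ fun θ : ℝ => (τ : ℂ) + θ * Complex.I := funext hNd
    rw [h4]
    exact ContinuousAt.comp (hS.smo _ (hra θ) (hrb θ)).continuousAt hw.continuousAt
  have hAc : Continuous A := by
    refine continuous_iff_continuousAt.2 fun θ => ?_
    have h4 : A = AA p ν ∘ fun θ : ℝ => (τ : ℂ) + θ * Complex.I := funext hAd
    rw [h4]
    exact ContinuousAt.comp (hA _ (hra θ) (hrb θ)).1 hw.continuousAt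
  have hA0 : ∀ θ, 0 ≤ A θ := fun θ => by rw [hAd]; exact (hA _ (hra θ) (hrb θ)).2
  have hshift : ∀ θ : ℝ, (τ : ℂ) + ((θ + 2 * Real.pi : ℝ) : ℂ) * Complex.I =
      ((τ : ℂ) + θ * Complex.I) + 2 * Real.pi * Complex.I := by
    intro θ
    push_cast
    ring
  have hφp : Function.Periodic φ (2 * Real.pi) := fun θ => by
    rw [hφd, hφd, hshift, hS.pper _ (hra θ) (hrb θ)]
  have hAp : Function.Periodic A (2 * Real.pi) := fun θ => by
    rw [hAd, hAd, hshift, Cir_perA hS _ (hra θ) (hrb θ)]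
  have haa : aa p ν τ = ∫ θ in (0 : ℝ)..(2 * Real.pi), A θ := by
    rw [aa]
    exact intervalIntegral.integral_congr fun θ _ => (hAd θ).symm
  rw [← hφd] at h0
  rw [← hNd] at h0ν
  rw [← hφd]
  by_contra hcon
  rw [not_lt] at hcon
  obtain ⟨θ1, hθ1, hθ1e⟩ := hφp.exists_mem_Ioc Real.two_pi_pos θ θ0
  rw [hθ1e] at hcon
  -- the first exit
  have hcomp : IsCompact (Icc θ0 θ1 ∩ {θ : ℝ | ε ≤ ‖φ θ - c0‖}) :=
    isCompact_Icc.inter_right (isClosed_le continuous_const ((hφc.sub continuous_const).norm))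
  obtain ⟨s, hs, hsl⟩ := hcomp.exists_isLeast ⟨θ1, ⟨hθ1.1.le, le_refl _⟩, hcon⟩
  have hs0 : θ0 < s := by
    rcases hs.1.1.lt_or_eq with h | h
    · exact h
    · have h5 : ε ≤ ‖φ s - c0‖ := hs.2
      rw [← h] at h5
      linarith
  have hJ : ∀ x, θ0 ≤ x → x < s → ‖φ x - c0‖ < ε := by
    intro x hx1 hx2
    by_contra h
    exact absurd (hsl ⟨⟨hx1, hx2.le.trans hs.1.2⟩, not_lt.1 h⟩) (not_le.2 hx2)
  have hgap : ∀ x, θ0 ≤ x → x < s → N x ≠ 0 → c1 ≤ ‖N x‖ := by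
    intro x hx1 hx2 hN
    rw [hNd] at hN ⊢
    refine hS.gap _ (hra x) (hrb x) ?_ hN
    rw [← hφd]
    exact hJ x hx1 hx2
  have hN0 : ∀ x, θ0 ≤ x → x < s → N x ≠ 0 := by
    intro x hx1 hx2 hx3
    have h1 := intermediate_value_Icc' hx1 (f := fun y => ‖N y‖) hNc.norm.continuousOn
    have h2 : c1 ≤ ‖N θ0‖ := hgap θ0 le_rfl hs0 h0ν
    have h3 : c1 / 2 ∈ Icc ‖N x‖ ‖N θ0‖ := by
      rw [hx3, norm_zero]
      exact ⟨by linarith, by linarith⟩
    obtain ⟨y, hy, hyc⟩ := h1 h3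
    have hyc' : ‖N y‖ = c1 / 2 := hyc
    have h4 : N y ≠ 0 := by
      intro h
      rw [h, norm_zero] at hyc'
      linarith
    have h5 := hgap y hy.1 (lt_of_le_of_lt hy.2 hx2) h4
    linarith
  have hlow : ∀ x, θ0 ≤ x → x < s → c1 * ‖T x‖ ^ 2 ≤ A x := by
    intro x hx1 hx2
    rw [hTd, hAd]
    refine hS.low _ (hra x) (hrb x) ?_ ?_
    · rw [← hφd]
      exact hJ x hx1 hx2
    · rw [← hNd]
      exact hN0 x hx1 hx2
  -- the estimate
  obtain ⟨δ, hδ⟩ : ∃ δ, δ = ε / 2 := ⟨_, rfl⟩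
  have hδ0 : 0 < δ := by rw [hδ]; linarith
  have hpi := Real.pi_pos
  have hbound : ∀ x ∈ Ioo θ0 s, ‖Complex.I * T x‖ ≤
      Real.pi / (δ * c1) * A x + δ / (4 * Real.pi) := by
    intro x hx
    have h1 := hlow x hx.1.le hx.2
    have h2 : ‖T x‖ ≤ Real.pi / δ * ‖T x‖ ^ 2 + δ / (4 * Real.pi) := by
      have h3 : 0 ≤ (2 * Real.pi * ‖T x‖ - δ) ^ 2 := sq_nonneg _
      have h4 : Real.pi / δ * ‖T x‖ ^ 2 + δ / (4 * Real.pi) - ‖T x‖ =
          (2 * Real.pi * ‖T x‖ - δ) ^ 2 / (4 * Real.pi * δ) := by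
        field_simp
        ring
      have h5 : 0 ≤ (2 * Real.pi * ‖T x‖ - δ) ^ 2 / (4 * Real.pi * δ) := by positivity
      linarith
    have h6 : Real.pi / δ * ‖T x‖ ^ 2 ≤ Real.pi / (δ * c1) * A x := by
      have h7 : Real.pi / δ * ‖T x‖ ^ 2 = Real.pi / (δ * c1) * (c1 * ‖T x‖ ^ 2) := by
        field_simp
      rw [h7]
      exact mul_le_mul_of_nonneg_left h1 (by positivity)
    rw [norm_mul, Complex.norm_I, one_mul]
    linarith
  have hG : Continuous fun x => Real.pi / (δ * c1) * A x + δ / (4 * Real.pi) :=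
    (continuous_const.mul hAc).add continuous_const
  have hint1 : ∫ x in θ0..s, Complex.I * T x = φ s - φ θ0 :=
    intervalIntegral.integral_eq_sub_of_hasDerivAt (fun x _ => hφ x)
      ((continuous_const.mul hTc).intervalIntegrable _ _)
  have hint2 : ‖φ s - φ θ0‖ ≤ ∫ x in θ0..s, (Real.pi / (δ * c1) * A x + δ / (4 * Real.pi)) := by
    rw [← hint1]
    refine (intervalIntegral.norm_integral_le_integral_norm hs0.le).trans ?_
    exact intervalIntegral.integral_mono_on_of_le_Ioo hs0.le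
      ((continuous_const.mul hTc).norm.intervalIntegrable _ _) (hG.intervalIntegrable _ _) hbound
  have hint3 : ∫ x in θ0..s, (Real.pi / (δ * c1) * A x + δ / (4 * Real.pi)) =
      Real.pi / (δ * c1) * (∫ x in θ0..s, A x) + (s - θ0) * (δ / (4 * Real.pi)) := by
    have hA2 : Continuous fun x => Real.pi / (δ * c1) * A x := continuous_const.mul hAc
    have hA3 : Continuous fun _ : ℝ => δ / (4 * Real.pi) := continuous_const
    rw [intervalIntegral.integral_add (hA2.intervalIntegrable _ _) (hA3.intervalIntegrable _ _),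
      intervalIntegral.integral_const_mul, intervalIntegral.integral_const, smul_eq_mul]
  have hs2 : s ≤ θ0 + 2 * Real.pi := hs.1.2.trans hθ1.2
  have hint4 : (∫ x in θ0..s, A x) ≤ aa p ν τ := by
    have h1 : (∫ x in θ0..s, A x) ≤ ∫ x in θ0..(θ0 + 2 * Real.pi), A x :=
      intervalIntegral.integral_mono_interval le_rfl hs0.le hs2
        (Filter.Eventually.of_forall fun x => hA0 x) (hAc.intervalIntegrable _ _)
    have h2 := hAp.intervalIntegral_add_eq θ0 0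
    rw [zero_add] at h2
    rw [haa, ← h2]
    exact h1
  have hdist : δ ≤ ‖φ s - φ θ0‖ := by
    have h1 : ε ≤ ‖φ s - c0‖ := hs.2
    have h2 : ‖φ s - c0‖ ≤ ‖φ s - φ θ0‖ + ‖φ θ0 - c0‖ := by
      have := norm_add_le (φ s - φ θ0) (φ θ0 - c0)
      rwa [sub_add_sub_cancel] at this
    rw [hδ]
    linarith
  have hf1 : Real.pi / (δ * c1) * (∫ x in θ0..s, A x) < δ / 2 := by
    have h1 : Real.pi / (δ * c1) * (∫ x in θ0..s, A x) ≤ Real.pi / (δ * c1) * aa p ν τ :=
      mul_le_mul_of_nonneg_left hint4 (by positivity)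
    have h2 : Real.pi / (δ * c1) * aa p ν τ < δ / 2 := by
      rw [div_mul_eq_mul_div, div_lt_iff₀ (by positivity)]
      rw [← hδ] at hsmall
      nlinarith
    linarith
  have hf2 : (s - θ0) * (δ / (4 * Real.pi)) ≤ δ / 2 := by
    have h1 : (s - θ0) * (δ / (4 * Real.pi)) ≤ (2 * Real.pi) * (δ / (4 * Real.pi)) :=
      mul_le_mul_of_nonneg_right (by linarith) (by positivity)
    have h2 : (2 * Real.pi) * (δ / (4 * Real.pi)) = δ / 2 := by
      field_simp
      norm_num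
    linarith
  rw [hint3] at hint2
  linarith

end Pool.Agent.N465591
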