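import Pool.Agent.Lib.MP_465591_an.N.H.Spec

/-!
# Theorem N, part H, module Ric: a Riccati inequality on the line
-/

set_option autoImplicit false

namespace Pool.Agent.N465591

/-- Monotonicity by the mean value theorem. -/
private lemma Ric_mono (f f' : ℝ → ℝ) (α β : ℝ)
    (hd : ∀ τ, α < τ → τ < β → HasDerivAt f (f' τ) τ)
    (h0 : ∀ τ, α < τ → τ < β → 0 ≤ f' τ) (x y : ℝ) (hx : α < x) (hxy : x ≤ y) (hy : y < β) :
    f x ≤ f y := by
  rcases eq_or_lt_of_le hxy with h | h
  · rw [h]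
  · obtain ⟨c, hc, e⟩ := exists_hasDerivAt_eq_slope f f' h
      (fun z hz => (hd z (lt_of_lt_of_le hx hz.1)
        (lt_of_le_of_lt hz.2 hy)).continuousAt.continuousWithinAt)
      (fun z hz => hd z (hx.trans hz.1) (hz.2.trans hy))
    have h1 := h0 c (hx.trans hc.1) (hc.2.trans hy)
    rw [e] at h1
    have h2 : 0 < y - x := sub_pos.2 h
    have h3 : 0 ≤ (f y - f x) / (y - x) * (y - x) := mul_nonneg h1 h2.le
    rw [div_mul_cancel₀ _ h2.ne'] at h3
    linarith

/-- The upper bound. -/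
private lemma Ric_up (l a : ℝ → ℝ) (M α β : ℝ) (hM : 0 < M)
    (hd : ∀ τ, α < τ → τ < β → HasDerivAt l (a τ) τ)
    (hl : ∀ τ, α < τ → τ < β → l τ ^ 2 ≤ M * a τ) (τ : ℝ) (h1 : α < τ) (h2 : τ < β) :
    l τ * (β - τ) ≤ M := by
  have ha : ∀ τ, α < τ → τ < β → 0 ≤ a τ := by
    intro τ h1 h2
    have h3 : 0 ≤ M * a τ := (sq_nonneg _).trans (hl τ h1 h2)
    exact (mul_nonneg_iff_of_pos_left hM).1 h3
  by_contra hc
  push Not at hc
  have hpos : 0 < l τ := by
    by_contra h
    push Not at h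
    have : l τ * (β - τ) ≤ 0 := mul_nonpos_of_nonpos_of_nonneg h (sub_pos.2 h2).le
    linarith
  have hs1 : τ < τ + M / l τ := by
    have := div_pos hM hpos
    linarith
  have hs2 : τ + M / l τ < β := by
    have : M / l τ < β - τ := by
      rw [div_lt_iff₀ hpos, mul_comm]
      exact hc
    linarith
  have hlp : ∀ s, τ ≤ s → s < β → 0 < l s := by
    intro s h3 h4
    exact lt_of_lt_of_le hpos (Ric_mono l a α β hd ha τ s h1 h3 h4)
  obtain ⟨c, hc1, e⟩ := exists_hasDerivAt_eq_slope (fun s => -(l s)⁻¹ - s / M)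
    (fun s => -(-(a s) / l s ^ 2) - 1 / M) hs1
    (fun z hz => by
      refine ContinuousAt.continuousWithinAt ?_
      have h3 := (hd z (lt_of_lt_of_le h1 hz.1) (lt_of_le_of_lt hz.2 hs2)).continuousAt
      exact ((h3.inv₀ (hlp z hz.1 (lt_of_le_of_lt hz.2 hs2)).ne').neg).sub
        (continuousAt_id.div_const M))
    (fun z hz => by
      have h3 := hd z (h1.trans hz.1) (hz.2.trans hs2)
      exact ((h3.inv (hlp z hz.1.le (hz.2.trans hs2)).ne').neg).sub
        ((hasDerivAt_id z).div_const M))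
  have hc3 : 0 < l c := hlp c hc1.1.le (hc1.2.trans hs2)
  have h3 : 0 ≤ -(-(a c) / l c ^ 2) - 1 / M := by
    have h4 := hl c (h1.trans hc1.1) (hc1.2.trans hs2)
    have h5 : 1 / M ≤ a c / l c ^ 2 := by
      rw [div_le_div_iff₀ hM (by positivity)]
      linarith
    rw [neg_div, neg_neg]
    linarith
  rw [e] at h3
  have h4 : 0 < τ + M / l τ - τ := by linarith
  have h5 : 0 ≤ ((-(l (τ + M / l τ))⁻¹ - (τ + M / l τ) / M) - (-(l τ)⁻¹ - τ / M)) := by
    have := mul_nonneg h3 h4.le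
    rwa [div_mul_cancel₀ _ h4.ne'] at this
  have h6 : 0 < (l (τ + M / l τ))⁻¹ := inv_pos.2 (hlp _ hs1.le hs2)
  have h7 : (τ + M / l τ) / M = τ / M + (l τ)⁻¹ := by
    field_simp
  rw [h7] at h5
  linarith

/-- The Riccati inequality on the line. -/
theorem tRic : S_Ric := by
  intro l a M K τ1 hM hK hd hl hc
  have ha : ∀ τ, τ1 - K < τ → τ < τ1 + K → 0 ≤ a τ := by
    intro τ h1 h2
    have h3 : 0 ≤ M * a τ := (sq_nonneg _).trans (hl τ h1 h2)
    exact (mul_nonneg_iff_of_pos_left hM).1 h3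
  have hmono := Ric_mono l a (τ1 - K) (τ1 + K) hd ha
  have hu := Ric_up l a M (τ1 - K) (τ1 + K) hM hd hl (τ1 + K / 2) (by linarith) (by linarith)
  have hv := Ric_up (fun s => -l (2 * τ1 - s)) (fun s => a (2 * τ1 - s)) M (τ1 - K) (τ1 + K) hM
    (fun τ h1 h2 => by
      have h3 := hd (2 * τ1 - τ) (by linarith) (by linarith)
      have h4 : HasDerivAt (fun s : ℝ => 2 * τ1 - s) (-1) τ := by
        simpa using (hasDerivAt_id τ).const_sub (2 * τ1)
      have h5 := (HasDerivAt.comp τ h3 h4).neg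
      have h6 : -(a (2 * τ1 - τ) * -1) = a (2 * τ1 - τ) := by ring
      rw [h6] at h5
      exact h5)
    (fun τ h1 h2 => by
      rw [neg_sq]
      exact hl (2 * τ1 - τ) (by linarith) (by linarith))
    (τ1 + K / 2) (by linarith) (by linarith)
  have hu' : l (τ1 + K / 2) * (K / 2) ≤ M := by
    have e : τ1 + K - (τ1 + K / 2) = K / 2 := by ring
    rwa [e] at hu
  have hv' : -l (τ1 - K / 2) * (K / 2) ≤ M := by
    have e : τ1 + K - (τ1 + K / 2) = K / 2 := by ring
    have e2 : 2 * τ1 - (τ1 + K / 2) = τ1 - K / 2 := by ring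
    simp only [e, e2] at hv
    exact hv
  have hD : l (τ1 + K / 2) - l (τ1 - K / 2) ≤ 4 * M / K := by
    rw [le_div_iff₀ hK]
    nlinarith
  have hslope : ∀ D : ℝ, D ≤ 4 * M / K → D / (K / 2) ≤ 8 * M / K ^ 2 := by
    intro D h
    have h2 : D / (K / 2) ≤ (4 * M / K) / (K / 2) :=
      div_le_div_of_nonneg_right h (by positivity)
    have h3 : (4 * M / K) / (K / 2) = 8 * M / K ^ 2 := by
      field_simp
      ring
    rwa [h3] at h2
  refine ⟨?_, ?_, ?_⟩
  · rw [intervalIntegral.integral_eq_sub_of_hasDerivAt (f := l) (f' := a)]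
    · exact hD
    · intro x hx
      rw [Set.uIcc_of_le (by linarith)] at hx
      exact hd x (by linarith [hx.1]) (by linarith [hx.2])
    · refine ContinuousOn.intervalIntegrable (hc.mono ?_)
      intro x hx
      rw [Set.uIcc_of_le (by linarith)] at hx
      exact ⟨by linarith [hx.1], by linarith [hx.2]⟩
  · obtain ⟨c, hc1, e⟩ := exists_hasDerivAt_eq_slope l a (show τ1 - K / 2 < τ1 by linarith)
      (fun z hz => (hd z (by linarith [hz.1]) (by linarith [hz.2])).continuousAt.continuousWithinAt)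
      (fun z hz => hd z (by linarith [hz.1]) (by linarith [hz.2]))
    refine ⟨c, hc1.1, hc1.2, ?_⟩
    rw [e]
    have e2 : τ1 - (τ1 - K / 2) = K / 2 := by ring
    rw [e2]
    refine hslope _ ?_
    have := hmono τ1 (τ1 + K / 2) (by linarith) (by linarith) (by linarith)
    linarith
  · obtain ⟨c, hc1, e⟩ := exists_hasDerivAt_eq_slope l a (show τ1 < τ1 + K / 2 by linarith)
      (fun z hz => (hd z (by linarith [hz.1]) (by linarith [hz.2])).continuousAt.continuousWithinAt)
      (fun z hz => hd z (by linarith [hz.1]) (by linarith [hz.2]))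
    refine ⟨c, hc1.1, hc1.2, ?_⟩
    rw [e]
    have e2 : τ1 + K / 2 - τ1 = K / 2 := by ring
    rw [e2]
    refine hslope _ ?_
    have := hmono (τ1 - K / 2) τ1 (by linarith) (by linarith) (by linarith)
    linarith

end Pool.Agent.N465591
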