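import Pool.Agent.Lib.MP_465591_an.N.H.Fin
import Pool.Agent.Lib.MP_465591_an.N.H.Ric
import Pool.Agent.Lib.MP_465591_an.N.H.Cal
import Pool.Agent.Lib.MP_465591_an.N.H.Cir
import Pool.Agent.Lib.MP_465591_an.N.H.Are

/-!
# MP_465591_an, part H: Lemma H, complete
-/

set_option autoImplicit false

namespace Pool.Agent.N465591

/-- **Lemma H**. -/
theorem tH : S_H := tFin tCal tRic (tCir tCal) (tAre tCal)

end Pool.Agent.N465591
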