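import Pool.Agent.Lib.MP_465591_an.N.H.Spec

/-!
# MP_465591_an, part H, module `Fin`: Lemma H from its steps
-/

set_option autoImplicit false

open Filter Topology MeasureTheory

noncomputable section

namespace Pool.Agent.N465591

/-- The trace identity for a real linear map. -/
private theorem Fin_lin (L : ℂ →L[ℝ] ℂ) (T : ℂ) :
    ((starRingEnd ℂ) (L T) * T).re - ((starRingEnd ℂ) (L (T * Complex.I)) * T).im =
      ((L 1).re + (L Complex.I).im) * ‖T‖ ^ 2 := by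
  have h1 : T = T.re • (1 : ℂ) + T.im • Complex.I := by
    apply Complex.ext <;> simp
  have h2 : T * Complex.I = (-T.im) • (1 : ℂ) + T.re • Complex.I := by
    apply Complex.ext <;> simp
  have e1 : L T = T.re • L 1 + T.im • L Complex.I := by
    conv_lhs => rw [h1]
    rw [map_add, map_smul, map_smul]
  have e2 : L (T * Complex.I) = (-T.im) • L 1 + T.re • L Complex.I := by
    rw [h2, map_add, map_smul, map_smul]
  rw [e1, e2, Complex.sq_norm, Complex.normSq_apply]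
  simp only [Complex.real_smul, map_add, map_mul, Complex.conj_ofReal, Complex.mul_re,
    Complex.mul_im, Complex.add_re, Complex.add_im, Complex.ofReal_re, Complex.ofReal_im,
    Complex.conj_re, Complex.conj_im]
  ring

/-- The density for `ν = n ∘ p`. -/
private theorem Fin_AA {p ν n : ℂ → ℂ} {w : ℂ} (hp : AnalyticAt ℂ p w)
    (hn : ContDiffAt ℝ 1 n (p w)) (hν : ν =ᶠ[𝓝 w] n ∘ p) :
    AA p ν w = dv n (p w) * ‖deriv p w‖ ^ 2 := by
  have h1 : HasFDerivAt p (deriv p w • (1 : ℂ →L[ℝ] ℂ)) w :=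
    hp.differentiableAt.hasDerivAt.complexToReal_fderiv
  have h2 : HasFDerivAt n (fderiv ℝ n (p w)) (p w) :=
    (hn.differentiableAt one_ne_zero).hasFDerivAt
  have h3 : HasFDerivAt ν ((fderiv ℝ n (p w)).comp (deriv p w • (1 : ℂ →L[ℝ] ℂ))) w :=
    (h2.comp w h1).congr_of_eventuallyEq hν
  have e : ∀ v : ℂ, fderiv ℝ ν w v = fderiv ℝ n (p w) (deriv p w * v) := by
    intro v
    rw [h3.fderiv]
    rfl
  unfold AA dv
  rw [e, e, mul_one]
  exact Fin_lin _ _

/-- The strip data. -/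
private theorem Fin_str {C1 c1 ε : ℝ} {c0 : ℂ} {P nn : ℂ → ℂ} {C R : ℝ} (hC : 0 < C) (hR : 0 < R)
    (hP : DifferentiableOn ℂ P (Metric.ball 0 R))
    (hn : ∀ z, C < ‖z‖ → ‖z‖ < R → ∃ n : ℂ → ℂ, ContDiffAt ℝ 1 n (P z) ∧
      (∀ᶠ z' in 𝓝 z, nn z' = n (P z')) ∧ ‖nn z‖ ^ 2 ≤ C1 * dv n (P z) ∧
      (‖P z - c0‖ < ε → nn z ≠ 0 → c1 ≤ dv n (P z)))
    (hg : ∀ z, C < ‖z‖ → ‖z‖ < R → ‖P z - c0‖ < ε → nn z ≠ 0 → c1 ≤ ‖nn z‖) :
    Str (Real.log C) (Real.log R) C1 c1 ε c0 (fun w => P (Complex.exp w))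
      (fun w => nn (Complex.exp w)) := by
  have hz1 : ∀ w : ℂ, Real.log C < w.re → C < ‖Complex.exp w‖ := fun w h => by
    rw [Complex.norm_exp]
    exact (Real.log_lt_iff_lt_exp hC).1 h
  have hz2 : ∀ w : ℂ, w.re < Real.log R → ‖Complex.exp w‖ < R := fun w h => by
    rw [Complex.norm_exp]
    exact (Real.lt_log_iff_exp_lt hR).1 h
  have hol : ∀ w : ℂ, w.re < Real.log R → AnalyticAt ℂ (fun w => P (Complex.exp w)) w := by
    intro w h
    have h1 : AnalyticAt ℂ P (Complex.exp w) :=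
      hP.analyticAt (Metric.isOpen_ball.mem_nhds (by simpa using hz2 w h))
    exact h1.comp analyticAt_cexp
  have hloc : ∀ w : ℂ, Real.log C < w.re → w.re < Real.log R → ∃ n : ℂ → ℂ,
      ContDiffAt ℝ 1 n (P (Complex.exp w)) ∧
      ((fun w => nn (Complex.exp w)) =ᶠ[𝓝 w] n ∘ (fun w => P (Complex.exp w))) ∧
      ‖nn (Complex.exp w)‖ ^ 2 ≤ C1 * dv n (P (Complex.exp w)) ∧
      (‖P (Complex.exp w) - c0‖ < ε → nn (Complex.exp w) ≠ 0 → c1 ≤ dv n (P (Complex.exp w))) := by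
    intro w ha hb
    obtain ⟨n, n1, n2, n3, n4⟩ := hn _ (hz1 w ha) (hz2 w hb)
    exact ⟨n, n1, Complex.continuous_exp.continuousAt.eventually n2, n3, n4⟩
  refine ⟨fun w _ hb => hol w hb, fun w ha hb => ?_, fun w _ _ => ?_, fun w _ _ => ?_,
    fun w ha hb => ?_, fun w ha hb h1 h2 => ?_, fun w ha hb h1 h2 => ?_⟩
  · obtain ⟨n, n1, n2, -, -⟩ := hloc w ha hb
    have h3 : ContDiffAt ℝ 1 (fun w => P (Complex.exp w)) w :=
      ((hol w hb).contDiffAt (n := 1)).restrict_scalars ℝ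
    exact (n1.comp w h3).congr_of_eventuallyEq n2
  · simp only [Complex.exp_periodic w]
  · simp only [Complex.exp_periodic w]
  · obtain ⟨n, n1, n2, n3, -⟩ := hloc w ha hb
    rw [Fin_AA (hol w hb) n1 n2, ← mul_assoc]
    exact mul_le_mul_of_nonneg_right n3 (sq_nonneg _)
  · obtain ⟨n, n1, n2, -, n4⟩ := hloc w ha hb
    rw [Fin_AA (hol w hb) n1 n2]
    exact mul_le_mul_of_nonneg_right (n4 h1 h2) (sq_nonneg _)
  · exact hg _ (hz1 w ha) (hz2 w hb) h1 h2

/-- The composition with the exponential is open. -/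
private theorem Fin_open {P : ℂ → ℂ} {R : ℝ} (hR : 0 < R) {z1 : ℂ} (hz1 : ‖z1‖ < R)
    (hP : DifferentiableOn ℂ P (Metric.ball 0 R)) (hne : P z1 ≠ P 0) (w : ℂ)
    (hw : w.re < Real.log R) (s : Set ℂ) (hs : s ∈ 𝓝 w) :
    (fun w => P (Complex.exp w)) '' s ∈ 𝓝 (P (Complex.exp w)) := by
  have hwR : Complex.exp w ∈ Metric.ball (0 : ℂ) R := by
    rw [mem_ball_zero_iff, Complex.norm_exp]
    exact (Real.lt_log_iff_exp_lt hR).1 hw
  have h1 : AnalyticOnNhd ℂ P (Metric.ball 0 R) := hP.analyticOnNhd Metric.isOpen_ball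
  rcases h1.is_constant_or_isOpen (convex_ball (0 : ℂ) R).isPreconnected with ⟨c, hc⟩ | h2
  · exact absurd ((hc z1 (by simpa using hz1)).trans (hc 0 (by simpa using hR)).symm) hne
  · have h3 : Complex.exp '' s ∈ 𝓝 (Complex.exp w) := by
      rw [← (Complex.hasStrictDerivAt_exp w).map_nhds_eq (Complex.exp_ne_zero w)]
      exact image_mem_map hs
    obtain ⟨U, hU1, hU2, hU3⟩ := mem_nhds_iff.1 (inter_mem h3 (Metric.isOpen_ball.mem_nhds hwR))
    have h4 := h2 U (fun x hx => (hU1 hx).2) hU2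
    refine mem_of_superset (h4.mem_nhds ⟨_, hU3, rfl⟩) ?_
    rintro _ ⟨x, hx, rfl⟩
    obtain ⟨y, hy, hxy⟩ := (hU1 hx).1
    exact ⟨y, hy, by simp only [hxy]⟩

/-- The maximum principle on a circle. -/
private theorem Fin_max {P : ℂ → ℂ} {R ε r : ℝ} {c0 : ℂ} (hr : 0 < r) (hrR : r < R)
    (hP : DifferentiableOn ℂ P (Metric.ball 0 R)) (h : ∀ z, ‖z‖ = r → ‖P z - c0‖ < ε) :
    ‖P 0 - c0‖ < ε := by
  have hsub : Metric.closedBall (0 : ℂ) r ⊆ Metric.ball 0 R := Metric.closedBall_subset_ball hrR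
  have hd : DiffContOnCl ℂ (fun z => P z - c0) (Metric.ball 0 r) := by
    refine DifferentiableOn.diffContOnCl ?_
    rw [closure_ball _ hr.ne']
    exact (hP.mono hsub).sub_const c0
  have hcont : ContinuousOn (fun z => ‖P z - c0‖) (Metric.sphere (0 : ℂ) r) :=
    ((hP.continuousOn.mono (Metric.sphere_subset_closedBall.trans hsub)).sub
      continuousOn_const).norm
  obtain ⟨z0, hz0, hmax⟩ := (isCompact_sphere (0 : ℂ) r).exists_isMaxOn
    ((NormedSpace.sphere_nonempty (x := (0 : ℂ))).2 hr.le) hcont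
  have h1 : ‖P 0 - c0‖ ≤ ‖P z0 - c0‖ := by
    refine Complex.norm_le_of_forall_mem_frontier_norm_le (f := fun z => P z - c0)
      Metric.isBounded_ball hd (C := ‖P z0 - c0‖) ?_ (z := 0) ?_
    · intro z hz
      rw [frontier_ball _ hr.ne'] at hz
      exact hmax hz
    · exact subset_closure (Metric.mem_ball_self hr)
  exact lt_of_le_of_lt h1 (h z0 (by simpa using hz0))

/-- **Lemma H** from its steps. -/
theorem tFin : S_Cal → S_Ric → S_Cir → S_Are → S_H := by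
  intro hCal hRic hCir hAre C1 c1 ε hC1 hc1 hε
  obtain ⟨Q, hQ⟩ : ∃ Q, Q = C1 / (c1 * ε ^ 2) := ⟨_, rfl⟩
  have hQ0 : 0 < Q := by rw [hQ]; positivity
  obtain ⟨K, hK⟩ : ∃ K, K = 128 * Real.pi ^ 2 * Q + 32 * Q + 1 := ⟨_, rfl⟩
  have hpi := Real.pi_pos
  have hK1 : 128 * Real.pi ^ 2 * Q < K := by
    rw [hK]
    linarith
  have hK2 : 32 * Q < K := by
    rw [hK]
    have : 0 < 128 * Real.pi ^ 2 * Q := by positivity
    linarith
  have hK3 : 1 ≤ K := by
    rw [hK]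
    have : 0 < 128 * Real.pi ^ 2 * Q := by positivity
    linarith
  have hK0 : 0 < K := by linarith
  have hCQ : C1 = Q * (c1 * ε ^ 2) := by
    rw [hQ]
    field_simp
  refine ⟨K, hK0, ?_⟩
  intro c0 P nn C R hC hP hn hg h0 z1 hz1 hz1' hPz hnz
  by_contra hcon
  rw [not_or, not_lt, not_lt] at hcon
  obtain ⟨hcon1, hcon2⟩ := hcon
  have hz0 : 0 < ‖z1‖ := hC.trans hz1
  have hR : 0 < R := hz0.trans hz1'
  have hz1n : z1 ≠ 0 := norm_pos_iff.1 hz0
  have hPne : P z1 ≠ P 0 := by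
    intro h
    rw [← h, hPz, sub_self, norm_zero] at h0
    linarith
  -- the interval
  have hI1 : Real.log C ≤ Real.log ‖z1‖ - K := by
    have h := Real.log_le_log (by positivity) hcon1
    rw [Real.log_mul hC.ne' (Real.exp_ne_zero K), Real.log_exp] at h
    linarith
  have hI2 : Real.log ‖z1‖ + K ≤ Real.log R := by
    have h := Real.log_le_log (by positivity) hcon2
    rw [Real.log_mul hz0.ne' (Real.exp_ne_zero K), Real.log_exp] at h
    exact h
  obtain ⟨τ1, hτ1⟩ : ∃ τ1, τ1 = Real.log ‖z1‖ := ⟨_, rfl⟩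
  rw [← hτ1] at hI1 hI2
  have hS := Fin_str hC hR hP hn hg
  obtain ⟨p, hp⟩ : ∃ p : ℂ → ℂ, p = fun w => P (Complex.exp w) := ⟨_, rfl⟩
  obtain ⟨ν, hν⟩ : ∃ ν : ℂ → ℂ, ν = fun w => nn (Complex.exp w) := ⟨_, rfl⟩
  rw [← hp, ← hν] at hS
  obtain ⟨k1, k2, k3, -⟩ := hCal _ _ C1 c1 ε c0 p ν hC1 hS
  have hM : 0 < 2 * Real.pi * C1 := by positivity
  obtain ⟨r1, ⟨τ', t1, t2, t3⟩, ⟨τ'', u1, u2, u3⟩⟩ := hRic (ll p ν) (aa p ν) (2 * Real.pi * C1) K τ1
    hM hK0 (fun τ h1 h2 => k1 τ (by linarith) (by linarith))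
    (fun τ h1 h2 => k2 τ (by linarith) (by linarith))
    (k3.mono (Set.Ioo_subset_Ioo hI1 hI2))
  have hpos : ∀ τ, Real.log C < τ → τ < Real.log R → 0 ≤ aa p ν τ := by
    intro τ h1 h2
    have h3 := k2 τ h1 h2
    have h4 := (sq_nonneg (ll p ν τ)).trans h3
    by_contra h5
    rw [not_le] at h5
    have := mul_neg_of_pos_of_neg hM h5
    linarith
  -- small circles do not meet `V'`
  have hsmall : ∀ x : ℝ, x ≤ 8 * (2 * Real.pi * C1) / K ^ 2 →
      2 * Real.pi * x < c1 * (ε / 2) ^ 2 := by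
    intro x hx
    have h1 : 2 * Real.pi * x ≤ 2 * Real.pi * (8 * (2 * Real.pi * C1) / K ^ 2) :=
      mul_le_mul_of_nonneg_left hx (by positivity)
    refine lt_of_le_of_lt h1 ?_
    have h2 : 2 * Real.pi * (8 * (2 * Real.pi * C1) / K ^ 2) =
        32 * Real.pi ^ 2 * C1 / K ^ 2 := by ring
    rw [h2, div_lt_iff₀ (by positivity), hCQ]
    have h3 : K ≤ K ^ 2 := by nlinarith
    have h4 : 0 < c1 * ε ^ 2 := by positivity
    have h5 : 128 * Real.pi ^ 2 * Q < K ^ 2 := lt_of_lt_of_le hK1 h3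
    have h6 := mul_lt_mul_of_pos_right h5 h4
    nlinarith
  have hcirc : ∀ τ, Real.log C < τ → τ < Real.log R →
      aa p ν τ ≤ 8 * (2 * Real.pi * C1) / K ^ 2 →
      ∀ θ : ℝ, ‖p (τ + θ * Complex.I) - c0‖ < ε / 2 → ν (τ + θ * Complex.I) = 0 := by
    intro τ h1 h2 h3 θ h4
    by_contra h5
    have h6 := hCir _ _ C1 c1 ε c0 p ν hC1 hc1 hε hS τ h1 h2 (hsmall _ h3) ⟨θ, h4, h5⟩
    have h7 : ‖P 0 - c0‖ < ε := by
      refine Fin_max (Real.exp_pos τ) ((Real.lt_log_iff_exp_lt hR).1 h2) hP ?_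
      intro z hz
      have hzn : z ≠ 0 := by
        rw [← norm_pos_iff, hz]
        exact Real.exp_pos τ
      have h8 := h6 z.arg
      have h9 : Complex.exp ((τ : ℂ) + (z.arg : ℂ) * Complex.I) = z := by
        rw [Complex.exp_add, ← Complex.ofReal_exp, ← hz]
        exact Complex.norm_mul_exp_arg_mul_I z
      rw [hp] at h8
      simp only [h9] at h8
      exact h8
    linarith
  have ht' : Real.log C < τ' := by linarith
  have ht'' : τ'' < Real.log R := by linarith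
  have hfin := hAre _ _ C1 c1 ε c0 p ν hC1 hc1 hε hS
    (fun w _ h2 s hs => by
      rw [hp]
      exact Fin_open hR hz1' hP hPne w h2 s hs)
    τ' τ'' ht' (by linarith) ht''
    (hcirc τ' ht' (by linarith) t3) (hcirc τ'' (by linarith) ht'' u3)
    ⟨Complex.log z1, by rw [Complex.log_re, ← hτ1]; exact t2, by rw [Complex.log_re, ← hτ1]; exact u1, by
      rw [hp]
      simp only [Complex.exp_log hz1n]
      exact hPz, by
      rw [hν]
      simp only [Complex.exp_log hz1n]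
      exact hnz⟩
  have hmono : (∫ τ in τ'..τ'', aa p ν τ) ≤ ∫ τ in (τ1 - K / 2)..(τ1 + K / 2), aa p ν τ := by
    refine intervalIntegral.integral_mono_interval t1.le (by linarith) u2.le ?_ ?_
    · refine (ae_restrict_iff' measurableSet_Ioc).2 (Filter.Eventually.of_forall fun τ hτ => ?_)
      exact hpos τ (by have := hτ.1; linarith) (by have := hτ.2; linarith)
    · refine ContinuousOn.intervalIntegrable ?_
      rw [Set.uIcc_of_le (by linarith)]
      refine k3.mono fun τ hτ => ⟨?_, ?_⟩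
      · have := hτ.1
        linarith
      · have := hτ.2
        linarith
  have hend : c1 * (Real.pi * (ε / 2) ^ 2) ≤ 4 * (2 * Real.pi * C1) / K := hfin.trans (hmono.trans r1)
  rw [le_div_iff₀ hK0, hCQ] at hend
  have h4 : 0 < c1 * ε ^ 2 * Real.pi := by positivity
  have h5 := mul_lt_mul_of_pos_right hK2 h4
  nlinarith

end Pool.Agent.N465591
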